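import Pool.Agent.H66.OD.Defs

/-!
# Vertex parallelepipeds, long edges and flag polytopes (definitions)

Definitions for MP_a35d42_co (Oda: is every smooth lattice polytope IDP?), in all dimensions.
The notions of a smooth lattice polytope and of the integer decomposition property are those of
`Pool/Agent/H66/OD/Defs.lean`.
-/

namespace H19OZ

open H66OD Matrix

/-- `P` contains its vertex parallelepipeds: for every vertex `v` and every finite set `T` of primitive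
edge vectors of `P` at `v`, the point `v + ∑ e ∈ T, e` belongs to `P`. -/
def HasVertexBoxes {d : ℕ} (P : Set (Fin d → ℝ)) : Prop :=
  ∀ v ∈ P.extremePoints ℝ, ∀ T : Finset (Fin d → ℤ), (T : Set (Fin d → ℤ)) ⊆ edgeVectors P v →
    v + ∑ e ∈ T, toR e ∈ P

/-- Every edge of `P` has lattice length at least `l`. -/
def EdgesAtLeast {d : ℕ} (l : ℕ) (P : Set (Fin d → ℝ)) : Prop :=
  ∀ v ∈ P.extremePoints ℝ, ∀ e ∈ edgeVectors P v, v + (l : ℝ) • toR e ∈ P

/-- A facet of `P`: a nonempty face (convex extreme subset) of dimension `d - 1`. -/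
def IsFacet {d : ℕ} (P F : Set (Fin d → ℝ)) : Prop :=
  F.Nonempty ∧ Convex ℝ F ∧ IsExtreme ℝ P F ∧ Module.finrank ℝ (vectorSpan ℝ F) + 1 = d

/-- `P` is flag: every finite family of pairwise intersecting facets has a common point in `P`. -/
def IsFlag {d : ℕ} (P : Set (Fin d → ℝ)) : Prop :=
  ∀ G : Finset (Set (Fin d → ℝ)), (∀ F ∈ G, IsFacet P F) →
    (∀ F ∈ G, ∀ F' ∈ G, (F ∩ F').Nonempty) → ∃ x ∈ P, ∀ F ∈ G, x ∈ F

/-- Combinatorial data of a smooth lattice polytope in `ℝ^d`: the finite set `Vt` of its vertices, and at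
each `v ∈ Vt` the basis `e v` of `ℤ^d` of primitive edge vectors, with dual basis `u v`. -/
structure SD {d : ℕ} (P : Set (Fin d → ℝ)) where
  Vt : Finset (Fin d → ℤ)
  ne : Vt.Nonempty
  hull : P = convexHull ℝ (toR '' (Vt : Set (Fin d → ℤ)))
  ext : ∀ v ∈ Vt, toR v ∈ P.extremePoints ℝ
  e : (Fin d → ℤ) → Fin d → (Fin d → ℤ)
  u : (Fin d → ℤ) → Fin d → (Fin d → ℤ)
  dual : ∀ v ∈ Vt, ∀ i j, u v i ⬝ᵥ e v j = if i = j then 1 else 0
  span : ∀ v ∈ Vt, ∀ x : Fin d → ℝ, x = ∑ i, (toR (u v i) ⬝ᵥ x) • toR (e v i)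
  mem : ∀ v ∈ Vt, ∀ i, toR (v + e v i) ∈ P
  cone : ∀ v ∈ Vt, ∀ i, ∀ x ∈ P, 0 ≤ toR (u v i) ⬝ᵥ (x - toR v)
  edge : ∀ v ∈ Vt, Set.range (e v) = edgeVectors P (toR v)

/-- Index form of `HasVertexBoxes`. -/
def SD.Box {d : ℕ} {P : Set (Fin d → ℝ)} (D : SD P) : Prop :=
  ∀ v ∈ D.Vt, ∀ T : Finset (Fin d), toR (v + ∑ i ∈ T, D.e v i) ∈ P

/-- The matrix `∑ e, w e • q e (q e)ᵀ`. -/
noncomputable def qm {n E : Type} [Fintype E] (q : E → n → ℝ) (w : E → ℝ) : Matrix n n ℝ :=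
  ∑ e, w e • vecMulVec (q e) (q e)

/-- The leverage score `w e * (q e)ᵀ Q⁻¹ (q e)` with `Q = qm q w`. -/
noncomputable def lev {n E : Type} [Fintype n] [DecidableEq n] [Fintype E] (q : E → n → ℝ)
    (w : E → ℝ) (e : E) : ℝ :=
  w e * (q e ⬝ᵥ (qm q w)⁻¹ *ᵥ q e)

end H19OZ
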