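import Pool.Agent.H19.OZ.Defs

/-!
# Row Lim (about 70 lines): passage to the limit

PROOF. For every `k : ℕ` take `δ = 1 / (k + 1)`: `γ k : E → ℝ` in the compact box
`{γ | ∀ e, |γ e| ≤ lam e / 2 + 1}` (`isCompact_univ_pi` of `Set.Icc`'s). A subsequence `γ (φ k)` converges to some `γ`
(`IsCompact.tendsto_subseq`). Then `|γ e| ≤ lam e / 2` (limit of `|γ (φ k) e| ≤ lam e / 2 + 1 / (φ k + 1)`,
`le_of_tendsto_of_tendsto'`). For each `j`, `y j - ∑ e, γ (φ k) e * q e j` is an integer (equal to `m (φ k) j`) and converges to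
`y j - ∑ e, γ e * q e j`; the set of integers is closed in `ℝ` (`Int.isClosedEmbedding_coe_real.isClosed_range`), so
this limit is an integer `m j`.
-/

namespace H19OZ

theorem lim {n E : Type} [Fintype n] [Fintype E] (q : E → n → ℤ) (y : n → ℝ) (lam : E → ℝ)
    (h : ∀ δ : ℝ, 0 < δ → ∃ (m : n → ℤ) (γ : E → ℝ),
      (∀ j, y j - (m j : ℝ) = ∑ e, γ e * (q e j : ℝ)) ∧ ∀ e, |γ e| ≤ lam e / 2 + δ) :
    ∃ (m : n → ℤ) (γ : E → ℝ),
      (∀ j, y j - (m j : ℝ) = ∑ e, γ e * (q e j : ℝ)) ∧ ∀ e, |γ e| ≤ lam e / 2 := by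
  have hk : ∀ k : ℕ, (0 : ℝ) < 1 / ((k : ℝ) + 1) := fun k => by positivity
  choose m γ h1 h2 using fun k : ℕ => h _ (hk k)
  have hcomp : IsCompact (Set.univ.pi fun e : E => Set.Icc (-(lam e / 2 + 1)) (lam e / 2 + 1)) :=
    isCompact_univ_pi fun e => isCompact_Icc
  have hmem : ∀ k, γ k ∈ Set.univ.pi fun e : E => Set.Icc (-(lam e / 2 + 1)) (lam e / 2 + 1) := by
    intro k e _
    have h3 := h2 k e
    have h4 : (1 : ℝ) / ((k : ℝ) + 1) ≤ 1 := by
      rw [div_le_one (by positivity)]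
      have : (0 : ℝ) ≤ k := Nat.cast_nonneg k
      linarith
    have h5 := abs_le.1 h3
    constructor <;> linarith [h5.1, h5.2]
  obtain ⟨g, _, φ, hφ, hlim⟩ := hcomp.tendsto_subseq hmem
  have hg : ∀ e, Filter.Tendsto (fun k => γ (φ k) e) Filter.atTop (nhds (g e)) := fun e =>
    (tendsto_pi_nhds.1 hlim) e
  have hint : ∀ j, ∃ z : ℤ, y j - ∑ e, g e * (q e j : ℝ) = (z : ℝ) := by
    intro j
    have hT : Filter.Tendsto (fun k => y j - ∑ e, γ (φ k) e * (q e j : ℝ)) Filter.atTop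
        (nhds (y j - ∑ e, g e * (q e j : ℝ))) := by
      refine Filter.Tendsto.sub tendsto_const_nhds ?_
      refine tendsto_finsetSum _ fun e _ => ?_
      exact (hg e).mul tendsto_const_nhds
    have hcl : IsClosed (Set.range ((↑) : ℤ → ℝ)) := Int.isClosedEmbedding_coe_real.isClosed_range
    have hmem2 : y j - ∑ e, g e * (q e j : ℝ) ∈ Set.range ((↑) : ℤ → ℝ) := by
      refine hcl.mem_of_tendsto hT (Filter.Eventually.of_forall fun k => ⟨m (φ k) j, ?_⟩)
      have := h1 (φ k) j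
      linarith
    obtain ⟨z, hz⟩ := hmem2
    exact ⟨z, hz.symm⟩
  choose z hz using hint
  refine ⟨z, g, fun j => ?_, fun e => ?_⟩
  · have := hz j
    linarith
  · have hT : Filter.Tendsto (fun k => |γ (φ k) e|) Filter.atTop (nhds |g e|) := (hg e).abs
    have hT2 : Filter.Tendsto (fun k => lam e / 2 + 1 / (((φ k : ℕ) : ℝ) + 1)) Filter.atTop
        (nhds (lam e / 2 + 0)) := by
      refine Filter.Tendsto.add tendsto_const_nhds ?_
      exact tendsto_one_div_add_atTop_nhds_zero_nat.comp hφ.tendsto_atTop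
    have := le_of_tendsto_of_tendsto' hT hT2 (fun k => h2 (φ k) e)
    simpa using this

end H19OZ
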