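import Pool.Agent.H19.OZ.Det

/-!
# Row Vor (about 120 lines): a nearest lattice point in the energy norm

PROOF. `Q = qm q w` is positive definite (`qm_posDef`), so is `Q⁻¹`. For `x : n → ℝ` let `N x = x ⬝ᵥ Q⁻¹ *ᵥ x ≥ 0`.
Let `η' > 0` with `w e * η' ≤ η` for all `e` (finite: `η' = η / (1 + ∑ e, w e)`). The set of the numbers
`N (y - m)`, `m : n → ℤ`, is bounded below by `0`; choose `m` with `N (y - m) ≤ N (y - m') + η'` for all `m'`
(`exists_lt_of_csInf_lt`). Put `x = y - m`, `ν = Q⁻¹ *ᵥ x`. For `e` and a sign `s = ±1` the vector `m + s • q e` is an integer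
vector, `y - (m + s • q e) = x - s • q e`, and
`N (x - s • q e) = N x - 2 * s * (q e ⬝ᵥ ν) + q e ⬝ᵥ Q⁻¹ *ᵥ q e` (symmetry of `Q⁻¹`). So
`2 * |q e ⬝ᵥ ν| ≤ q e ⬝ᵥ Q⁻¹ *ᵥ q e + η'`. Put `γ e = w e * (q e ⬝ᵥ ν)`: `|γ e| ≤ lev q w e / 2 + w e * η' / 2`.
And `x = Q *ᵥ ν = ∑ e, w e * (q e ⬝ᵥ ν) • q e` (`Q * Q⁻¹ = 1`, `det Q ≠ 0`; `vecMulVec_mulVec`).
-/

namespace H19OZ

open Matrix

theorem Vor_symm {n : Type} [Fintype n] {M : Matrix n n ℝ} (hM : Mᵀ = M) (x y : n → ℝ) :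
    x ⬝ᵥ M *ᵥ y = y ⬝ᵥ M *ᵥ x := by
  rw [Matrix.dotProduct_mulVec, ← Matrix.mulVec_transpose, hM, dotProduct_comm]

theorem Vor_quad {n : Type} [Fintype n] {M : Matrix n n ℝ} (hM : Mᵀ = M) (x a : n → ℝ) (s : ℝ) :
    (x - s • a) ⬝ᵥ M *ᵥ (x - s • a) =
      x ⬝ᵥ M *ᵥ x - 2 * s * (a ⬝ᵥ M *ᵥ x) + s ^ 2 * (a ⬝ᵥ M *ᵥ a) := by
  rw [Matrix.mulVec_sub, Matrix.mulVec_smul, sub_dotProduct, dotProduct_sub, dotProduct_sub,
    smul_dotProduct, smul_dotProduct, dotProduct_smul, dotProduct_smul, Vor_symm hM x a]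
  simp only [smul_eq_mul]
  ring

theorem Vor_apply {n E : Type} [Fintype n] [Fintype E] (q : E → n → ℝ) (w : E → ℝ) (ν : n → ℝ)
    (j : n) : (qm q w *ᵥ ν) j = ∑ e, (w e * (q e ⬝ᵥ ν)) * q e j := by
  have e1 : ∀ k, qm q w j k = ∑ e, w e * (q e j * q e k) := by
    intro k
    unfold qm
    rw [Matrix.sum_apply]
    refine Finset.sum_congr rfl fun e _ => ?_
    rw [Matrix.smul_apply, Matrix.vecMulVec_apply, smul_eq_mul]
  simp only [Matrix.mulVec, dotProduct, e1, Finset.sum_mul, Finset.mul_sum]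
  rw [Finset.sum_comm]
  exact Finset.sum_congr rfl fun e _ => Finset.sum_congr rfl fun k _ => by ring

theorem vor {n E : Type} [Fintype n] [DecidableEq n] [Fintype E] (q : E → n → ℤ) (w : E → ℝ)
    (hw : ∀ e, 0 < w e)
    (hspan : ∀ x : n → ℝ, (∀ e, (fun j => ((q e j : ℤ) : ℝ)) ⬝ᵥ x = 0) → x = 0)
    (y : n → ℝ) (η : ℝ) (hη : 0 < η) :
    ∃ (m : n → ℤ) (γ : E → ℝ), (∀ j, y j - (m j : ℝ) = ∑ e, γ e * (q e j : ℝ)) ∧
      ∀ e, |γ e| ≤ lev (fun e j => ((q e j : ℤ) : ℝ)) w e / 2 + η := by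
  set qr : E → n → ℝ := fun e j => ((q e j : ℤ) : ℝ) with hqr
  have hQ : (qm qr w).PosDef := qm_posDef hw hspan
  have hI : ((qm qr w)⁻¹).PosDef := hQ.inv
  have hdet : IsUnit (qm qr w).det := isUnit_iff_ne_zero.2 hQ.det_pos.ne'
  have hsym : ((qm qr w)⁻¹)ᵀ = (qm qr w)⁻¹ := by
    have := hI.isHermitian
    unfold Matrix.IsHermitian at this
    rwa [Matrix.conjTranspose_eq_transpose_of_trivial] at this
  set M := (qm qr w)⁻¹ with hM
  set N : (n → ℤ) → ℝ := fun m =>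
    (fun j => y j - (m j : ℝ)) ⬝ᵥ M *ᵥ (fun j => y j - (m j : ℝ)) with hN
  have hN0 : ∀ m, 0 ≤ N m := by
    intro m
    have := hI.posSemidef.dotProduct_mulVec_nonneg (fun j => y j - (m j : ℝ))
    simpa using this
  have hW : 0 ≤ ∑ e, w e := Finset.sum_nonneg fun e _ => (hw e).le
  set η' : ℝ := η / (1 + ∑ e, w e) with hη'
  have hη'0 : 0 < η' := by positivity
  have hwη : ∀ e, w e * η' ≤ η := by
    intro e
    have h1 : w e ≤ 1 + ∑ e, w e := by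
      have := Finset.single_le_sum (f := w) (fun e _ => (hw e).le) (Finset.mem_univ e)
      linarith
    have h2 : η = (1 + ∑ e, w e) * η' := by
      rw [hη']
      field_simp
    rw [h2]
    exact mul_le_mul_of_nonneg_right h1 hη'0.le
  have hbdd : BddBelow (Set.range N) := ⟨0, by rintro _ ⟨m, rfl⟩; exact hN0 m⟩
  obtain ⟨_, ⟨m, rfl⟩, hm⟩ := exists_lt_of_csInf_lt (Set.range_nonempty N)
    (lt_add_of_pos_right (sInf (Set.range N)) hη'0)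
  have hmin : ∀ m', N m ≤ N m' + η' := by
    intro m'
    have := csInf_le hbdd ⟨m', rfl⟩
    linarith
  set x : n → ℝ := fun j => y j - (m j : ℝ) with hx
  have key : ∀ (e : E) (s : ℤ), s ^ 2 = 1 →
      2 * (s : ℝ) * (qr e ⬝ᵥ M *ᵥ x) ≤ qr e ⬝ᵥ M *ᵥ qr e + η' := by
    intro e s hs
    have h1 := hmin (fun j => m j + s * q e j)
    have h2 : (fun j => y j - ((m j + s * q e j : ℤ) : ℝ)) = x - (s : ℝ) • qr e := by
      funext j
      rw [Pi.sub_apply, Pi.smul_apply, smul_eq_mul]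
      simp only [hx, hqr]
      push_cast
      ring
    have h3 : N (fun j => m j + s * q e j) =
        x ⬝ᵥ M *ᵥ x - 2 * (s : ℝ) * (qr e ⬝ᵥ M *ᵥ x) + (s : ℝ) ^ 2 * (qr e ⬝ᵥ M *ᵥ qr e) := by
      rw [← Vor_quad hsym, ← h2]
    have h4 : (s : ℝ) ^ 2 = 1 := by exact_mod_cast hs
    rw [h3, h4] at h1
    have h5 : N m = x ⬝ᵥ M *ᵥ x := rfl
    rw [h5] at h1
    linarith
  refine ⟨m, fun e => w e * (qr e ⬝ᵥ M *ᵥ x), fun j => ?_, fun e => ?_⟩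
  · have h1 : qm qr w *ᵥ (M *ᵥ x) = x := by
      rw [Matrix.mulVec_mulVec, hM, Matrix.mul_nonsing_inv _ hdet, Matrix.one_mulVec]
    have h2 := Vor_apply qr w (M *ᵥ x) j
    rw [h1] at h2
    exact h2
  · have h1 := key e 1 (by norm_num)
    have h2 := key e (-1) (by norm_num)
    push_cast at h1 h2
    have h3 : |qr e ⬝ᵥ M *ᵥ x| ≤ (qr e ⬝ᵥ M *ᵥ qr e + η') / 2 := by
      rw [abs_le]
      constructor <;> linarith
    have h4 : lev qr w e = w e * (qr e ⬝ᵥ M *ᵥ qr e) := rfl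
    rw [h4, abs_mul, abs_of_pos (hw e)]
    have h5 := mul_le_mul_of_nonneg_left h3 (hw e).le
    have h6 := hwη e
    have h7 : w e * ((qr e ⬝ᵥ M *ᵥ qr e + η') / 2) =
        w e * (qr e ⬝ᵥ M *ᵥ qr e) / 2 + (w e * η') / 2 := by ring
    rw [h7] at h5
    linarith

end H19OZ
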