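import Pool.Agent.H19.OZ.Mini
import Pool.Agent.H19.OZ.Vor
import Pool.Agent.H19.OZ.Lim

/-!
# Row LZ (about 120 lines): the covering lemma, square and rectangular form

PROOF of `lz`. `E = S × n`, `q (s, i) = A s i` (row `i`), `lam (s, i) = μ s`.
`hspan`: take any `s` (nonempty, since `∑ μ = 1`): if all `A s i ⬝ᵥ x = 0` then `(A s) *ᵥ x = 0`, `det ≠ 0`, so
`x = 0` (`Matrix.eq_zero_of_mulVec_eq_zero`).
`hlow`: by `det_lower` and `Real.log_prod`, `Real.log` monotone: `∑ i, log (w (s,i)) ≤ log det` for every `s`;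
multiply by `μ s ≥ 0` and add: `∑ s, μ s * ∑ i, log (w (s,i)) ≤ (∑ s, μ s) * log det = log det`.
For `δ > 0`: `mini` with `δ` gives `w` with `lev ≤ lam + δ`; `vor` with `η = δ / 2` gives `m`, `γ` with
`|γ e| ≤ lev / 2 + δ / 2 ≤ lam e / 2 + δ`. Conclude with `lim`, and `γ s i := γ (s, i)`.

PROOF of `lz_rect`. For every `s` the matrices `A s : I s × J` and `B s : J × I s` are inverse to each other, so
`Fintype.card (I s) = Fintype.card J` (`Matrix.square_of_invertible`); choose `f s : I s ≃ J`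
(`Fintype.equivOfCardEq`) and apply `lz` to `A' s i j = A s ((f s).symm i) j` (`Matrix.reindex` / `submatrix`), which has an
inverse integer matrix, so `det ≠ 0`. Reindex the sums with `Equiv.sum_comp`.
-/

namespace H19OZ

open Matrix

theorem lz {n S : Type} [Fintype n] [DecidableEq n] [Fintype S] [DecidableEq S]
    (A : S → Matrix n n ℤ) (hA : ∀ s, (A s).det ≠ 0) (μ : S → ℝ) (h0 : ∀ s, 0 ≤ μ s)
    (h1 : ∑ s, μ s = 1) (y : n → ℝ) :
    ∃ γ : S → n → ℝ, (∀ s i, |γ s i| ≤ μ s / 2) ∧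
      ∃ m : n → ℤ, ∀ j, y j - (m j : ℝ) = ∑ s, ∑ i, γ s i * ((A s i j : ℤ) : ℝ) := by
  have hspan : ∀ x : n → ℝ, (∀ e : S × n, (fun j => ((A e.1 e.2 j : ℤ) : ℝ)) ⬝ᵥ x = 0) →
      x = 0 := by
    intro x hx
    have hne : Nonempty S := by
      by_contra hS
      rw [not_nonempty_iff] at hS
      rw [Finset.univ_eq_empty, Finset.sum_empty] at h1
      exact zero_ne_one h1
    obtain ⟨s⟩ := hne
    have hdet : ((A s).map (Int.cast : ℤ → ℝ)).det ≠ 0 := by
      have e : ((A s).map (Int.cast : ℤ → ℝ)).det = (((A s).det : ℤ) : ℝ) :=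
        (Int.cast_det (A s)).symm
      rw [e]
      exact Int.cast_ne_zero.2 (hA s)
    refine Matrix.eq_zero_of_mulVec_eq_zero hdet ?_
    funext i
    exact hx (s, i)
  have hlow : ∀ w : S × n → ℝ, (∀ e, 0 < w e) →
      ∑ e : S × n, μ e.1 * Real.log (w e) ≤
        Real.log (qm (fun (e : S × n) (j : n) => ((A e.1 e.2 j : ℤ) : ℝ)) w).det := by
    intro w hw
    have hs : ∀ s, ∑ i, Real.log (w (s, i)) ≤
        Real.log (qm (fun (e : S × n) (j : n) => ((A e.1 e.2 j : ℤ) : ℝ)) w).det := by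
      intro s
      rw [← Real.log_prod (fun i _ => (hw (s, i)).ne')]
      exact Real.log_le_log (Finset.prod_pos fun i _ => hw (s, i)) (det_lower A hA w hw s)
    calc ∑ e : S × n, μ e.1 * Real.log (w e)
        = ∑ s, μ s * ∑ i, Real.log (w (s, i)) := by
          rw [Fintype.sum_prod_type]
          exact Finset.sum_congr rfl fun s _ => by rw [Finset.mul_sum]
      _ ≤ ∑ s, μ s *
          Real.log (qm (fun (e : S × n) (j : n) => ((A e.1 e.2 j : ℤ) : ℝ)) w).det :=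
          Finset.sum_le_sum fun s _ => mul_le_mul_of_nonneg_left (hs s) (h0 s)
      _ = Real.log (qm (fun (e : S × n) (j : n) => ((A e.1 e.2 j : ℤ) : ℝ)) w).det := by
          rw [← Finset.sum_mul, h1, one_mul]
  obtain ⟨m, γ, hm, hγ⟩ := lim (fun e : S × n => A e.1 e.2) y (fun e => μ e.1) (by
    intro δ hδ
    obtain ⟨w, hw, hlev⟩ := mini (fun (e : S × n) (j : n) => ((A e.1 e.2 j : ℤ) : ℝ)) hspan
      (fun e => μ e.1) hlow δ hδ
    obtain ⟨m, γ, hm, hγ⟩ := vor (fun e : S × n => A e.1 e.2) w hw hspan y (δ / 2) (by linarith)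
    refine ⟨m, γ, hm, fun e => ?_⟩
    have h2 := hγ e
    have h3 := (abs_le.1 (hlev e)).2
    linarith)
  refine ⟨fun s i => γ (s, i), fun s i => hγ (s, i), m, fun j => ?_⟩
  rw [hm j, Fintype.sum_prod_type]

theorem lz_rect {J S : Type} [Fintype J] [DecidableEq J] [Fintype S] [DecidableEq S]
    (I : S → Type) [∀ s, Fintype (I s)] [∀ s, DecidableEq (I s)]
    (A : ∀ s, Matrix (I s) J ℤ) (B : ∀ s, Matrix J (I s) ℤ)
    (hAB : ∀ s, A s * B s = 1) (hBA : ∀ s, B s * A s = 1)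
    (μ : S → ℝ) (h0 : ∀ s, 0 ≤ μ s) (h1 : ∑ s, μ s = 1) (y : J → ℝ) :
    ∃ γ : ∀ s, I s → ℝ, (∀ s i, |γ s i| ≤ μ s / 2) ∧
      ∃ m : J → ℤ, ∀ j, y j - (m j : ℝ) = ∑ s, ∑ i, γ s i * ((A s i j : ℤ) : ℝ) := by
  have hcard : ∀ s, Fintype.card (I s) = Fintype.card J := fun s =>
    Matrix.square_of_invertible (A s) (B s) (hAB s) (hBA s)
  let f : ∀ s, I s ≃ J := fun s => Fintype.equivOfCardEq (hcard s)
  obtain ⟨γ, hγ, m, hm⟩ := lz (fun s => (A s).submatrix (f s).symm id) (by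
    intro s
    refine Matrix.det_ne_zero_of_right_inverse (B := (B s).submatrix id (f s).symm) ?_
    rw [← Matrix.submatrix_mul _ _ (f s).symm id (f s).symm Function.bijective_id, hAB s,
      Matrix.submatrix_one_equiv]) μ h0 h1 y
  refine ⟨fun s i => γ s (f s i), fun s i => hγ s _, m, fun j => ?_⟩
  rw [hm j]
  refine Finset.sum_congr rfl fun s _ => ?_
  rw [← Equiv.sum_comp (f s)]
  refine Finset.sum_congr rfl fun i _ => ?_
  rw [Matrix.submatrix_apply, Equiv.symm_apply_apply, id]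

end H19OZ
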