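import Pool.Agent.H19.OZ.Dir
import Pool.Agent.H19.OZ.LZ

/-!
# Row Core (about 200 lines): the decomposition step

PROOF. Let `μ` from `mu_exists`, `V = VF D y`, fix `v0 ∈ V` (nonempty: `fc_vertex`). Apply `lz_rect` with
`S = {v // v ∈ V}`, `J = {j // j ∈ If D y v0}`, `I v = {i // i ∈ If D y v}`, `A v = Am D y v0 v`, `B v = Am D y v v0`
(`am_mul` twice), the weights `μ`.
Let `c0 = ∑ v ∈ V, μ v • (toR v + (1/2) • ∑ i ∈ If v, toR (e v i))` and target `Y j = toR (u v0 j) ⬝ᵥ (c0 - toR v0)`, `j ∈ J`.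
`lz_rect` gives `γ v i`, `|γ v i| ≤ μ v / 2`, `m : J → ℤ`, `Y j - m j = ∑ v, ∑ i, γ v i * A v i j`.
Put `z = c0 - ∑ v ∈ V, ∑ i ∈ If v, γ v i • toR (e v i)`. Then `toR (u v0 j) ⬝ᵥ (z - toR v0) = m j` for `j ∈ If v0`; and `= 0` for
`j ∉ If v0`: by `dir` the `e`-terms vanish, and `toR (u v0 j) ⬝ᵥ (toR v - toR v0) = 0` for `v ∈ V` by `fc_tight`
(`∑ μ = 1`; `j ∉ If D y v0` means `toR (u v0 j) ⬝ᵥ (y - toR v0) = 0`, as it is `≥ 0` by `D.cone`). By `D.span`,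
`z = toR v0 + ∑ j ∈ If v0, m j • toR (e v0 j) = toR p`, `p : Fin d → ℤ`.
For `v ∈ V`, `i ∈ If v` let `c v i = 1/2 - γ v i / μ v` if `μ v ≠ 0`, `1/2` otherwise (`c v i = 0` for `i ∉ If v`):
`0 ≤ c ≤ 1` and `μ v * c v i = μ v / 2 - γ v i` in all cases (`μ v = 0` forces `γ v i = 0`). So
`toR p = ∑ v ∈ V, μ v • (toR v + ∑ i, c v i • toR (e v i)) ∈ P` by `D.boxC` and convexity (`Convex.sum_mem`).
And `toR (x - p) = ∑ v ∈ V, μ v • (toR x - toR v - ∑ i, c v i • toR (e v i))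
= ∑ μ v • (gv v + k • toR v + ∑ i ∈ If v, (1 - c v i) • toR (e v i)) = k • ∑ μ v • (toR v + ∑ i ∈ If v, ((1 - c v i)/k) • toR (e v i))`
(`∑ μ v • gv v = 0`, `1 ≤ k`); `0 ≤ (1 - c v i)/k ≤ 1`; the last sum is in `P` by `D.boxC` and convexity.
-/

namespace H19OZ

open H66OD Matrix
open scoped Classical

variable {d : ℕ} {P : Set (Fin d → ℝ)}

/-- The extension of `γ` by zero. -/
noncomputable def Core_ext (D : SD P) (y : Fin d → ℝ)
    (γ : ∀ s : {v // v ∈ VF D y}, {i // i ∈ If D y s.1} → ℝ) (v : Fin d → ℤ) (i : Fin d) : ℝ :=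
  if h : v ∈ VF D y then (if h' : i ∈ If D y v then γ ⟨v, h⟩ ⟨i, h'⟩ else 0) else 0

theorem Core_ext_apply (D : SD P) (y : Fin d → ℝ)
    (γ : ∀ s : {v // v ∈ VF D y}, {i // i ∈ If D y s.1} → ℝ) {v : Fin d → ℤ} {i : Fin d}
    (h : v ∈ VF D y) (h' : i ∈ If D y v) : Core_ext D y γ v i = γ ⟨v, h⟩ ⟨i, h'⟩ := by
  rw [Core_ext, dif_pos h, dif_pos h']

theorem Core_sum (D : SD P) (y : Fin d → ℝ)
    (γ : ∀ s : {v // v ∈ VF D y}, {i // i ∈ If D y s.1} → ℝ)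
    (a : (Fin d → ℤ) → Fin d → ℝ) :
    ∑ s : {v // v ∈ VF D y}, ∑ i : {i // i ∈ If D y s.1}, γ s i * a s.1 i.1 =
      ∑ v ∈ VF D y, ∑ i ∈ If D y v, Core_ext D y γ v i * a v i := by
  rw [← Finset.sum_coe_sort (VF D y)]
  refine Finset.sum_congr rfl fun s _ => ?_
  rw [← Finset.sum_coe_sort (If D y s.1)]
  refine Finset.sum_congr rfl fun i _ => ?_
  rw [Core_ext_apply D y γ s.2 i.2]

/-- The coefficients `c v i`. -/
noncomputable def Core_c (D : SD P) (y : Fin d → ℝ) (μ : (Fin d → ℤ) → ℝ)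
    (g : (Fin d → ℤ) → Fin d → ℝ) (v : Fin d → ℤ) (i : Fin d) : ℝ :=
  if i ∈ If D y v then (if μ v = 0 then 1 / 2 else 1 / 2 - g v i / μ v) else 0

theorem Core_c_bd (D : SD P) (y : Fin d → ℝ) (μ : (Fin d → ℤ) → ℝ)
    (g : (Fin d → ℤ) → Fin d → ℝ) (v : Fin d → ℤ) (h0 : 0 ≤ μ v)
    (hg : ∀ i ∈ If D y v, |g v i| ≤ μ v / 2) (i : Fin d) :
    0 ≤ Core_c D y μ g v i ∧ Core_c D y μ g v i ≤ 1 := by
  unfold Core_c
  split_ifs with h1 h2
  · constructor <;> norm_num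
  · have h3 : 0 < μ v := lt_of_le_of_ne h0 (Ne.symm h2)
    have h4 := abs_le.1 (hg i h1)
    have h5 : g v i / μ v ≤ 1 / 2 := by
      rw [div_le_iff₀ h3]
      linarith [h4.2]
    have h6 : -(1 / 2) ≤ g v i / μ v := by
      rw [le_div_iff₀ h3]
      linarith [h4.1]
    constructor <;> linarith
  · constructor <;> norm_num

theorem Core_c_mul (D : SD P) (y : Fin d → ℝ) (μ : (Fin d → ℤ) → ℝ)
    (g : (Fin d → ℤ) → Fin d → ℝ) (v : Fin d → ℤ)
    (hg : ∀ i ∈ If D y v, |g v i| ≤ μ v / 2) (i : Fin d) (hi : i ∈ If D y v) :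
    μ v * Core_c D y μ g v i = μ v / 2 - g v i := by
  unfold Core_c
  rw [if_pos hi]
  split_ifs with h2
  · have h4 := hg i hi
    rw [h2, zero_div] at h4
    have h5 : g v i = 0 := abs_eq_zero.1 (le_antisymm h4 (abs_nonneg _))
    rw [h2, h5]
    ring
  · field_simp

theorem Core_c_zero (D : SD P) (y : Fin d → ℝ) (μ : (Fin d → ℤ) → ℝ)
    (g : (Fin d → ℤ) → Fin d → ℝ) (v : Fin d → ℤ) (i : Fin d) (hi : i ∉ If D y v) :
    Core_c D y μ g v i = 0 := by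
  unfold Core_c
  rw [if_neg hi]

theorem Core_sum_if (D : SD P) (y : Fin d → ℝ) (v : Fin d → ℤ) (c : Fin d → ℝ)
    (hc : ∀ i, i ∉ If D y v → c i = 0) :
    ∑ i, c i • toR (D.e v i) = ∑ i ∈ If D y v, c i • toR (D.e v i) := by
  symm
  refine Finset.sum_subset (Finset.subset_univ _) fun i _ hi => ?_
  rw [hc i hi, zero_smul]

theorem step (D : SD P) (hB : D.Box) (k : ℕ) (hk : 1 ≤ k) (x : Fin d → ℤ) {y : Fin d → ℝ}
    (hy : y ∈ P) (hx : toR x = ((k : ℝ) + 1) • y) :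
    ∃ p : Fin d → ℤ, toR p ∈ P ∧ ∃ z ∈ P, toR (x - p) = (k : ℝ) • z := by
  obtain ⟨μ, hμ0, hμ1, hμg⟩ := mu_exists D hy x k hx
  obtain ⟨v0, hv0t, hv0F⟩ := fc_vertex D hy
  have hv0 : v0 ∈ VF D y := Finset.mem_filter.2 ⟨hv0t, hv0F⟩
  have hVt : ∀ v ∈ VF D y, v ∈ D.Vt ∧ toR v ∈ Fc P y := fun v hv => Finset.mem_filter.1 hv
  have hk' : (1 : ℝ) ≤ k := by exact_mod_cast hk
  obtain ⟨c0, hc0⟩ : ∃ c0 : Fin d → ℝ, c0 = ∑ v ∈ VF D y,
      μ v • (toR v + (1 / 2 : ℝ) • ∑ i ∈ If D y v, toR (D.e v i)) := ⟨_, rfl⟩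
  obtain ⟨γ, hγ, m, hm⟩ := lz_rect (S := {v // v ∈ VF D y}) (J := {j // j ∈ If D y v0})
    (fun v => {i // i ∈ If D y v.1}) (fun v => Am D y v0 v.1) (fun v => Am D y v.1 v0)
    (fun v => am_mul D hy v.2 hv0) (fun v => am_mul D hy hv0 v.2) (fun v => μ v.1)
    (fun v => hμ0 v.1 v.2) (by rw [Finset.sum_coe_sort (VF D y) μ]; exact hμ1)
    (fun j => toR (D.u v0 j.1) ⬝ᵥ (c0 - toR v0))
  obtain ⟨g, hg⟩ : ∃ g : (Fin d → ℤ) → Fin d → ℝ, g = Core_ext D y γ := ⟨_, rfl⟩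
  have hgb : ∀ v ∈ VF D y, ∀ i ∈ If D y v, |g v i| ≤ μ v / 2 := by
    intro v hv i hi
    rw [hg, Core_ext_apply D y γ hv hi]
    exact hγ ⟨v, hv⟩ ⟨i, hi⟩
  have hmj : ∀ j (hj : j ∈ If D y v0), toR (D.u v0 j) ⬝ᵥ (c0 - toR v0) - (m ⟨j, hj⟩ : ℝ) =
      ∑ v ∈ VF D y, ∑ i ∈ If D y v, g v i * (toR (D.u v0 j) ⬝ᵥ toR (D.e v i)) := by
    intro j hj
    have h1 := hm ⟨j, hj⟩
    rw [h1, hg, ← Core_sum D y γ (fun v i => toR (D.u v0 j) ⬝ᵥ toR (D.e v i))]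
    refine Finset.sum_congr rfl fun s _ => Finset.sum_congr rfl fun i _ => ?_
    rw [toR_dot]
    rfl
  obtain ⟨c, hc⟩ : ∃ c : (Fin d → ℤ) → Fin d → ℝ, c = Core_c D y μ g := ⟨_, rfl⟩
  have hc01 : ∀ v ∈ VF D y, ∀ i, 0 ≤ c v i ∧ c v i ≤ 1 := by
    intro v hv i
    rw [hc]
    exact Core_c_bd D y μ g v (hμ0 v hv) (hgb v hv) i
  have hcm : ∀ v ∈ VF D y, ∀ i ∈ If D y v, μ v * c v i = μ v / 2 - g v i := by
    intro v hv i hi
    rw [hc]
    exact Core_c_mul D y μ g v (hgb v hv) i hi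
  have hcz : ∀ v i, i ∉ If D y v → c v i = 0 := by
    intro v i hi
    rw [hc]
    exact Core_c_zero D y μ g v i hi
  obtain ⟨z, hz⟩ : ∃ z : Fin d → ℝ, z = ∑ v ∈ VF D y,
      μ v • (toR v + ∑ i, c v i • toR (D.e v i)) := ⟨_, rfl⟩
  have hzP : z ∈ P := by
    rw [hz]
    exact D.convex.sum_mem hμ0 hμ1 fun v hv =>
      D.boxC hB (hVt v hv).1 (c v) (fun i => (hc01 v hv i).1) (fun i => (hc01 v hv i).2)
  have hz2 : z = c0 - ∑ v ∈ VF D y, ∑ i ∈ If D y v, g v i • toR (D.e v i) := by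
    rw [hz, hc0, ← Finset.sum_sub_distrib]
    refine Finset.sum_congr rfl fun v hv => ?_
    rw [Core_sum_if D y v (c v) (hcz v), smul_add, smul_add, Finset.smul_sum, Finset.smul_sum,
      Finset.smul_sum, add_sub_assoc, ← Finset.sum_sub_distrib]
    congr 1
    refine Finset.sum_congr rfl fun i hi => ?_
    rw [smul_smul, hcm v hv i hi, smul_smul]
    module
  have hz3 : z - toR v0 = ∑ v ∈ VF D y,
      μ v • ((toR v - toR v0) + ∑ i ∈ If D y v, c v i • toR (D.e v i)) := by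
    have h1 : toR v0 = ∑ v ∈ VF D y, μ v • toR v0 := by
      rw [← Finset.sum_smul, hμ1, one_smul]
    calc z - toR v0 = z - ∑ v ∈ VF D y, μ v • toR v0 := by rw [← h1]
      _ = _ := by
        rw [hz, ← Finset.sum_sub_distrib]
        refine Finset.sum_congr rfl fun v hv => ?_
        rw [Core_sum_if D y v (c v) (hcz v)]
        module
  have hcoef1 : ∀ j (hj : j ∈ If D y v0), toR (D.u v0 j) ⬝ᵥ (z - toR v0) = (m ⟨j, hj⟩ : ℝ) := by
    intro j hj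
    have h1 : z - toR v0 = (c0 - toR v0) -
        ∑ v ∈ VF D y, ∑ i ∈ If D y v, g v i • toR (D.e v i) := by
      rw [hz2]
      abel
    have h2 : toR (D.u v0 j) ⬝ᵥ (∑ v ∈ VF D y, ∑ i ∈ If D y v, g v i • toR (D.e v i)) =
        ∑ v ∈ VF D y, ∑ i ∈ If D y v, g v i * (toR (D.u v0 j) ⬝ᵥ toR (D.e v i)) := by
      rw [dotProduct_sum]
      refine Finset.sum_congr rfl fun v _ => ?_
      rw [dotProduct_sum]
      refine Finset.sum_congr rfl fun i _ => ?_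
      rw [dotProduct_smul, smul_eq_mul]
    rw [h1, dotProduct_sub, h2, ← hmj j hj]
    ring
  have hcoef0 : ∀ j, j ∉ If D y v0 → toR (D.u v0 j) ⬝ᵥ (z - toR v0) = 0 := by
    intro j hj
    have hj0 : toR (D.u v0 j) ⬝ᵥ (y - toR v0) = 0 := by
      have h1 := D.cone v0 hv0t j y hy
      have h2 : ¬ 0 < toR (D.u v0 j) ⬝ᵥ (y - toR v0) := fun h =>
        hj (Finset.mem_filter.2 ⟨Finset.mem_univ _, h⟩)
      exact le_antisymm (not_lt.1 h2) h1
    rw [hz3, dotProduct_sum]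
    refine Finset.sum_eq_zero fun v hv => ?_
    rw [dotProduct_smul, dotProduct_add, fc_tight D (hVt v hv).2 hv0t hj0, dotProduct_sum,
      Finset.sum_eq_zero, add_zero, smul_zero]
    intro i hi
    rw [dotProduct_smul, toR_dot, dir D hy hv hv0 hi hj]
    simp
  obtain ⟨p, hp⟩ : ∃ p : Fin d → ℤ, p = v0 + ∑ j : {j // j ∈ If D y v0}, m j • D.e v0 j.1 :=
    ⟨_, rfl⟩
  have hpz : toR p = z := by
    have h1 := D.span v0 hv0t (z - toR v0)
    have h2 : ∑ i, (toR (D.u v0 i) ⬝ᵥ (z - toR v0)) • toR (D.e v0 i) =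
        ∑ i ∈ If D y v0, (toR (D.u v0 i) ⬝ᵥ (z - toR v0)) • toR (D.e v0 i) :=
      Core_sum_if D y v0 (fun i => toR (D.u v0 i) ⬝ᵥ (z - toR v0)) hcoef0
    have h3 : toR p = toR v0 + ∑ j : {j // j ∈ If D y v0}, (m j : ℝ) • toR (D.e v0 j.1) := by
      rw [hp, toR_add, toR_sum]
      congr 1
      exact Finset.sum_congr rfl fun j _ => toR_zsmul _ _
    rw [h3]
    rw [h2, ← Finset.sum_coe_sort (If D y v0)] at h1
    have h4 : ∑ j : {j // j ∈ If D y v0}, (m j : ℝ) • toR (D.e v0 j.1) = z - toR v0 := by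
      rw [h1]
      exact Finset.sum_congr rfl fun j _ => by rw [hcoef1 j.1 j.2]
    rw [h4]
    abel
  refine ⟨p, hpz ▸ hzP, ?_⟩
  obtain ⟨c', hc'⟩ : ∃ c' : (Fin d → ℤ) → Fin d → ℝ, c' = fun v i =>
      if i ∈ If D y v then (1 - c v i) / (k : ℝ) else 0 := ⟨_, rfl⟩
  have hc'01 : ∀ v ∈ VF D y, ∀ i, 0 ≤ c' v i ∧ c' v i ≤ 1 := by
    intro v hv i
    have h1 := hc01 v hv i
    rw [hc']
    simp only
    split_ifs with h2
    · constructor
      · apply div_nonneg (by linarith) (by linarith)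
      · rw [div_le_iff₀ (by linarith)]
        linarith
    · constructor <;> norm_num
  refine ⟨∑ v ∈ VF D y, μ v • (toR v + ∑ i, c' v i • toR (D.e v i)), ?_, ?_⟩
  · exact D.convex.sum_mem hμ0 hμ1 fun v hv =>
      D.boxC hB (hVt v hv).1 (c' v) (fun i => (hc'01 v hv i).1) (fun i => (hc'01 v hv i).2)
  · have h1 : toR x = ∑ v ∈ VF D y, μ v • toR x := by
      rw [← Finset.sum_smul, hμ1, one_smul]
    have h2 : toR (x - p) = ∑ v ∈ VF D y, μ v • gv D x y k v +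
        ∑ v ∈ VF D y, μ v • ((k : ℝ) • toR v + ∑ i ∈ If D y v, (1 - c v i) • toR (D.e v i)) := by
      calc toR (x - p) = ∑ v ∈ VF D y, μ v • toR x - z := by rw [toR_sub, hpz, ← h1]
        _ = _ := by
          rw [hz, ← Finset.sum_sub_distrib, ← Finset.sum_add_distrib]
          refine Finset.sum_congr rfl fun v hv => ?_
          rw [Core_sum_if D y v (c v) (hcz v), gv]
          have h5 : ∑ i ∈ If D y v, (1 - c v i) • toR (D.e v i) =
              ∑ i ∈ If D y v, toR (D.e v i) - ∑ i ∈ If D y v, c v i • toR (D.e v i) := by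
            rw [← Finset.sum_sub_distrib]
            exact Finset.sum_congr rfl fun i _ => by rw [sub_smul, one_smul]
          rw [h5]
          module
    rw [h2, hμg, zero_add, Finset.smul_sum]
    refine Finset.sum_congr rfl fun v hv => ?_
    have h6 : ∑ i, c' v i • toR (D.e v i) = ∑ i ∈ If D y v, c' v i • toR (D.e v i) :=
      Core_sum_if D y v (c' v) (fun i hi => by rw [hc']; simp only; rw [if_neg hi])
    rw [h6, smul_comm (k : ℝ) (μ v), smul_add (k : ℝ), Finset.smul_sum]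
    congr 2
    refine Finset.sum_congr rfl fun i hi => ?_
    rw [smul_smul, hc']
    simp only
    rw [if_pos hi, mul_div_cancel₀ _ (by linarith)]

end H19OZ
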