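import Pool.Agent.H19.OZ.Defs

/-!
# Row Det (about 130 lines): the matrix `Q = ∑ w q qᵀ`

`qm q w = ∑ e, w e • vecMulVec (q e) (q e)`.

PROOF of `qm_posDef`. Symmetric; for `x ≠ 0`: `x ⬝ᵥ Q *ᵥ x = ∑ e, w e * (q e ⬝ᵥ x)^2 ≥ 0`, and it is `0` only if
all `q e ⬝ᵥ x = 0`, hence `x = 0` by `hspan`. (Over `ℝ`, `star x = x`.)

PROOF of `det_update`. `Q` positive definite, so `Q.det` is a unit; matrix determinant lemma
(`Matrix.det_add_replicateCol_mul_replicateRow` or `Matrix.det_one_add_...`, use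
`vecMulVec a b = replicateCol Unit a * replicateRow Unit b`): `det (Q + c a aᵀ) = det Q * (1 + c aᵀ Q⁻¹ a)`.

PROOF of `det_lower`. `E = S × n`, `q (s, i) j = A s i j` (integers). Fix `s`. For a finset `T ⊆ S × n` let
`R T = ∑ i, w (s,i) q q^T + ∑ e ∈ T, w e q q^T`. By induction on `T` (`Finset.induction_on`), `R T` is positive
definite and `det (R ∅) ≤ det (R T)`: adding `c a aᵀ` with `c ≥ 0` to a positive definite matrix keeps it positive
definite (`PosDef.add_posSemidef`) and multiplies `det` by `1 + c aᵀ Q⁻¹ a ≥ 1` (`det_update`; `Q⁻¹` is positive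
definite, `PosDef.inv`). `qm q w = R (univ.filter (·.1 ≠ s))`. And `R ∅ = Bᵀ * diagonal (fun i => w (s,i)) * B` with
`B = (A s).map (Int.cast)`, so `det (R ∅) = det(B)^2 * ∏ i, w (s,i)`, and `det B` is a nonzero integer
(`Matrix.det` commutes with the cast: `Int.cast_det` / `RingHom.map_det`), so its square is `≥ 1`.
-/

namespace H19OZ

open Matrix

variable {n : Type} [Fintype n] [DecidableEq n]

omit [DecidableEq n] in
theorem Det_quad {E : Type} [Fintype E] (q : E → n → ℝ) (w : E → ℝ) (x : n → ℝ) :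
    x ⬝ᵥ (qm q w) *ᵥ x = ∑ e, w e * (q e ⬝ᵥ x) ^ 2 := by
  unfold qm
  rw [Matrix.sum_mulVec, dotProduct_sum]
  refine Finset.sum_congr rfl fun e _ => ?_
  rw [Matrix.smul_mulVec, vecMulVec_mulVec, dotProduct_smul, smul_eq_mul]
  congr 1
  have : x ⬝ᵥ (MulOpposite.op (q e ⬝ᵥ x) • q e) = (q e ⬝ᵥ x) * (x ⬝ᵥ q e) := by
    simp only [dotProduct, Pi.smul_apply, MulOpposite.smul_eq_mul_unop, MulOpposite.unop_op]
    rw [Finset.mul_sum]
    refine Finset.sum_congr rfl fun i _ => ?_
    ring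
  rw [this, dotProduct_comm x (q e)]
  ring

omit [Fintype n] [DecidableEq n] in
theorem Det_herm {E : Type} [Fintype E] (q : E → n → ℝ) (w : E → ℝ) : (qm q w).IsHermitian := by
  unfold qm
  ext i j
  rw [conjTranspose_apply, Matrix.sum_apply, Matrix.sum_apply]
  simp only [Matrix.smul_apply, vecMulVec_apply, smul_eq_mul, star_trivial]
  refine Finset.sum_congr rfl fun e _ => ?_
  ring

theorem qm_posDef {E : Type} [Fintype E] {q : E → n → ℝ} {w : E → ℝ} (hw : ∀ e, 0 < w e)
    (hspan : ∀ x : n → ℝ, (∀ e, q e ⬝ᵥ x = 0) → x = 0) : (qm q w).PosDef := by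
  refine PosDef.of_dotProduct_mulVec_pos (Det_herm q w) fun x hx => ?_
  rw [star_trivial, Det_quad]
  have hnn : ∀ e ∈ Finset.univ, 0 ≤ w e * (q e ⬝ᵥ x) ^ 2 :=
    fun e _ => mul_nonneg (hw e).le (sq_nonneg _)
  refine (Finset.sum_nonneg hnn).lt_of_ne fun h => hx (hspan x fun e => ?_)
  have h1 := (Finset.sum_eq_zero_iff_of_nonneg hnn).1 h.symm e (Finset.mem_univ e)
  rcases mul_eq_zero.1 h1 with h2 | h2
  · exact absurd h2 (hw e).ne'
  · exact pow_eq_zero_iff (two_ne_zero) |>.1 h2

theorem det_update {Q : Matrix n n ℝ} (hQ : Q.PosDef) (a : n → ℝ) (c : ℝ) :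
    (Q + c • vecMulVec a a).det = Q.det * (1 + c * (a ⬝ᵥ Q⁻¹ *ᵥ a)) := by
  have hu : IsUnit Q.det := isUnit_iff_ne_zero.2 hQ.det_pos.ne'
  have e1 : c • vecMulVec a a = replicateCol Unit (c • a) * replicateRow Unit a := by
    rw [← vecMulVec_eq]
    ext i j
    simp only [Matrix.smul_apply, vecMulVec_apply, smul_eq_mul, Pi.smul_apply]
    ring
  rw [e1, det_add_replicateCol_mul_replicateRow hu]
  congr 1
  rw [det_unique, Matrix.add_apply, Matrix.one_apply_eq, Matrix.mul_assoc]
  congr 1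
  have : (replicateRow Unit a * (Q⁻¹ * replicateCol Unit (c • a))) default default
      = a ⬝ᵥ (Q⁻¹ *ᵥ (c • a)) := rfl
  rw [this, mulVec_smul, dotProduct_smul, smul_eq_mul]

/-- the partial sums -/
noncomputable def Det_R {E : Type} (q : E → n → ℝ) (w : E → ℝ) (T : Finset E) : Matrix n n ℝ :=
  ∑ e ∈ T, w e • vecMulVec (q e) (q e)

theorem Det_pos {E : Type} [DecidableEq E] (q : E → n → ℝ) (w : E → ℝ) (hw : ∀ e, 0 < w e)
    (T0 T : Finset E) (hd : Disjoint T0 T) (h0 : (Det_R q w T0).PosDef) :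
    (Det_R q w (T0 ∪ T)).PosDef ∧ (Det_R q w T0).det ≤ (Det_R q w (T0 ∪ T)).det := by
  induction T using Finset.induction_on with
  | empty => simpa using h0
  | insert e T he ih =>
    have hd' : Disjoint T0 T := Finset.disjoint_of_subset_right (Finset.subset_insert e T) hd
    obtain ⟨h1, h2⟩ := ih hd'
    have he0 : e ∉ T0 := fun h => (Finset.disjoint_left.1 hd h) (Finset.mem_insert_self e T)
    have e1 : Det_R q w (T0 ∪ insert e T) = Det_R q w (T0 ∪ T) + w e • vecMulVec (q e) (q e) := by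
      unfold Det_R
      rw [Finset.union_insert, Finset.sum_insert, add_comm]
      rw [Finset.mem_union]
      push Not
      exact ⟨he0, he⟩
    have hps : (w e • vecMulVec (q e) (q e)).PosSemidef := by
      have := posSemidef_vecMulVec_self_star (R := ℝ) (q e)
      rw [star_trivial] at this
      exact this.smul (hw e).le
    refine ⟨?_, ?_⟩
    · rw [e1]
      exact h1.add_posSemidef hps
    · rw [e1, det_update h1]
      refine h2.trans ?_
      apply le_mul_of_one_le_right h1.det_pos.le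
      have h3 : 0 ≤ q e ⬝ᵥ (Det_R q w (T0 ∪ T))⁻¹ *ᵥ q e := by
        have := h1.inv.posSemidef.dotProduct_mulVec_nonneg (q e)
        rwa [star_trivial] at this
      have := mul_nonneg (hw e).le h3
      linarith

theorem det_lower {S : Type} [Fintype S] (A : S → Matrix n n ℤ) (hA : ∀ s, (A s).det ≠ 0)
    (w : S × n → ℝ) (hw : ∀ e, 0 < w e) (s : S) :
    ∏ i, w (s, i) ≤ (qm (fun (e : S × n) (j : n) => ((A e.1 e.2 j : ℤ) : ℝ)) w).det := by
  classical
  set q : S × n → n → ℝ := fun e j => ((A e.1 e.2 j : ℤ) : ℝ) with hq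
  set B : Matrix n n ℝ := (A s).map (Int.cast) with hB
  have hBdet : B.det = (((A s).det : ℤ) : ℝ) := by
    rw [hB]
    exact (Int.cast_det (A s)).symm
  set T0 : Finset (S × n) := Finset.univ.filter (fun e => e.1 = s) with hT0
  have hR0 : Det_R q w T0 = Bᵀ * diagonal (fun i => w (s, i)) * B := by
    unfold Det_R
    ext i j
    rw [Matrix.sum_apply, Matrix.mul_apply]
    simp only [mul_diagonal, transpose_apply, Matrix.smul_apply, vecMulVec_apply, smul_eq_mul]
    have himg : T0 = Finset.univ.map ⟨fun k : n => (s, k), fun _ _ h => (Prod.mk.inj h).2⟩ := by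
      ext e
      rw [hT0, Finset.mem_filter, Finset.mem_map]
      constructor
      · rintro ⟨_, h⟩
        exact ⟨e.2, Finset.mem_univ _, by rw [← h]; rfl⟩
      · rintro ⟨k, _, rfl⟩
        exact ⟨Finset.mem_univ _, rfl⟩
    rw [himg, Finset.sum_map]
    refine Finset.sum_congr rfl fun k _ => ?_
    show w (s, k) * (((A s k i : ℤ) : ℝ) * ((A s k j : ℤ) : ℝ)) =
      ((A s k i : ℤ) : ℝ) * w (s, k) * ((A s k j : ℤ) : ℝ)
    ring
  have hdetR0 : (Det_R q w T0).det = B.det ^ 2 * ∏ i, w (s, i) := by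
    rw [hR0, det_mul, det_mul, det_transpose, det_diagonal]
    ring
  have hBne : B.det ≠ 0 := by
    rw [hBdet]
    exact_mod_cast hA s
  have hpd : (Det_R q w T0).PosDef := by
    rw [hR0]
    have hD : (diagonal (fun i => w (s, i))).PosDef := PosDef.diagonal fun i => hw _
    have := hD.conjTranspose_mul_mul_same (B := B) (by
      intro x y hxy
      have hu : IsUnit B.det := isUnit_iff_ne_zero.2 hBne
      have h1 := congrArg (fun v => B⁻¹ *ᵥ v) hxy
      simp only [mulVec_mulVec, nonsing_inv_mul _ hu, one_mulVec] at h1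
      exact h1)
    rwa [conjTranspose_eq_transpose_of_trivial] at this
  have hfull : qm q w = Det_R q w (T0 ∪ Finset.univ.filter (fun e => ¬ e.1 = s)) := by
    unfold qm Det_R
    rw [hT0, Finset.filter_union_filter_not_eq]
  have hmain := Det_pos q w hw T0 (Finset.univ.filter (fun e => ¬ e.1 = s))
    (Finset.disjoint_filter_filter_not _ _ _) hpd
  rw [hfull]
  refine le_trans ?_ hmain.2
  rw [hdetR0]
  apply le_mul_of_one_le_left (Finset.prod_nonneg fun i _ => (hw _).le)
  rw [hBdet]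
  have h1 : (1 : ℤ) ≤ (A s).det ^ 2 := by
    have := sq_nonneg (A s).det
    have h2 : (A s).det ^ 2 ≠ 0 := pow_ne_zero 2 (hA s)
    omega
  exact_mod_cast h1

end H19OZ
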