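import Pool.Agent.H19.OZ.Mu

/-!
# Row Dir (about 110 lines): the edge bases of the minimal face are bases of the same lattice

PROOF of `dir`. `toR (v + e v i) ∈ Fc P y` by `fc_of_tight` applied at `v` (`v ∈ VF D y` gives `v ∈ D.Vt`, `toR v ∈ Fc P y`;
`D.mem`; if `toR (u v l) ⬝ᵥ (y - toR v) = 0` then `l ≠ i` and
`toR (u v l) ⬝ᵥ (toR (v + e v i) - toR v) = ((u v l ⬝ᵥ e v i : ℤ) : ℝ) = 0` by `toR_dot`, `D.dual`).
`j ∉ If D y v'` means `toR (u v' j) ⬝ᵥ (y - toR v') = 0` (it is `≥ 0` by `D.cone`, `y ∈ P`). By `fc_tight` at `v'`,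
`toR (u v' j) ⬝ᵥ (· - toR v') = 0` at both points `toR v` and `toR (v + e v i)`; subtract, cast back to `ℤ`.
PROOF of `am_mul`. Entry `(i, i')`: `∑ j ∈ If v0, (u v0 j ⬝ᵥ e v i) * (u v i' ⬝ᵥ e v0 j)`. By `dir` (with `v' = v0`) the terms
`j ∉ If v0` vanish, so the sum may be taken over all `j : Fin d`, and it equals `u v i' ⬝ᵥ e v i`, because
`e v i = ∑ j, (u v0 j ⬝ᵥ e v i) • e v0 j` (`D.span` at `v0` for `toR (e v i)`, `toR_dot`, `toR_injective`). `D.dual`.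
-/

namespace H19OZ

open H66OD Matrix
open scoped Classical

variable {d : ℕ} {P : Set (Fin d → ℝ)}

theorem dir (D : SD P) {y : Fin d → ℝ} (hy : y ∈ P) {v v' : Fin d → ℤ} (hv : v ∈ VF D y)
    (hv' : v' ∈ VF D y) {i j : Fin d} (hi : i ∈ If D y v) (hj : j ∉ If D y v') :
    D.u v' j ⬝ᵥ D.e v i = 0 := by
  obtain ⟨hvt, hvF⟩ := Finset.mem_filter.1 hv
  obtain ⟨hvt', hvF'⟩ := Finset.mem_filter.1 hv'
  have hi' : 0 < toR (D.u v i) ⬝ᵥ (y - toR v) := (Finset.mem_filter.1 hi).2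
  have hz : toR (v + D.e v i) ∈ Fc P y := by
    refine fc_of_tight D hy (D.mem v hvt i) hvt hvF fun l hl => ?_
    rw [toR_add, add_sub_cancel_left, toR_dot, D.dual v hvt l i]
    have hli : l ≠ i := by
      rintro rfl
      exact absurd hl hi'.ne'
    rw [if_neg hli, Int.cast_zero]
  have hj0 : toR (D.u v' j) ⬝ᵥ (y - toR v') = 0 := by
    refine le_antisymm (not_lt.1 fun h => hj ?_) (D.cone v' hvt' j y hy)
    exact Finset.mem_filter.2 ⟨Finset.mem_univ _, h⟩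
  have h1 := fc_tight D hvF hvt' hj0
  have h2 := fc_tight D hz hvt' hj0
  have h3 : toR (D.u v' j) ⬝ᵥ toR (D.e v i) = 0 := by
    have h4 : toR (D.e v i) = (toR (v + D.e v i) - toR v') - (toR v - toR v') := by
      rw [toR_add]
      abel
    rw [h4, dotProduct_sub, h1, h2, sub_zero]
  rw [toR_dot] at h3
  exact_mod_cast h3

/-- Coordinates of the edge vectors at `v` in the edge basis at `v0`. -/
noncomputable def Am (D : SD P) (y : Fin d → ℝ) (v0 v : Fin d → ℤ) :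
    Matrix {i // i ∈ If D y v} {j // j ∈ If D y v0} ℤ :=
  fun i j => D.u v0 j.1 ⬝ᵥ D.e v i.1

theorem am_mul (D : SD P) {y : Fin d → ℝ} (hy : y ∈ P) {v v0 : Fin d → ℤ} (hv : v ∈ VF D y)
    (hv0 : v0 ∈ VF D y) : Am D y v0 v * Am D y v v0 = 1 := by
  have hvt : v ∈ D.Vt := (Finset.mem_filter.1 hv).1
  have hvt0 : v0 ∈ D.Vt := (Finset.mem_filter.1 hv0).1
  ext i i'
  have hexp : D.e v i.1 = ∑ j, (D.u v0 j ⬝ᵥ D.e v i.1) • D.e v0 j := by
    apply toR_injective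
    rw [toR_sum]
    conv_lhs => rw [D.span v0 hvt0 (toR (D.e v i.1))]
    refine Finset.sum_congr rfl fun j _ => ?_
    rw [toR_dot, toR_zsmul]
  have h1 : D.u v i'.1 ⬝ᵥ D.e v i.1 =
      ∑ j, (D.u v0 j ⬝ᵥ D.e v i.1) * (D.u v i'.1 ⬝ᵥ D.e v0 j) := by
    conv_lhs => rw [hexp]
    rw [dotProduct_sum]
    refine Finset.sum_congr rfl fun j _ => ?_
    rw [dotProduct_smul, smul_eq_mul]
  have h2 : ∑ j, (D.u v0 j ⬝ᵥ D.e v i.1) * (D.u v i'.1 ⬝ᵥ D.e v0 j) =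
      ∑ j ∈ If D y v0, (D.u v0 j ⬝ᵥ D.e v i.1) * (D.u v i'.1 ⬝ᵥ D.e v0 j) := by
    symm
    refine Finset.sum_subset (Finset.subset_univ _) fun j _ hj => ?_
    rw [dir D hy hv hv0 i.2 hj, zero_mul]
  rw [Matrix.mul_apply]
  have h3 : ∑ j : {j // j ∈ If D y v0}, Am D y v0 v i j * Am D y v v0 j i' =
      ∑ j ∈ If D y v0, (D.u v0 j ⬝ᵥ D.e v i.1) * (D.u v i'.1 ⬝ᵥ D.e v0 j) :=
    Finset.sum_coe_sort (If D y v0)
      (fun j => (D.u v0 j ⬝ᵥ D.e v i.1) * (D.u v i'.1 ⬝ᵥ D.e v0 j))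
  rw [h3, ← h2, ← h1, D.dual v hvt]
  by_cases h : i = i'
  · rw [h, Matrix.one_apply_eq, if_pos rfl]
  · rw [Matrix.one_apply_ne h, if_neg fun h' => h (Subtype.ext h'.symm)]

end H19OZ
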