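import Pool.Agent.H19.OZ.HD

/-!
# Row Fac (about 150 lines): the facets of a smooth polytope

`Gf D v i = {z ∈ P | toR (u v i) ⬝ᵥ (z - toR v) = 0}`.

PROOF of `gf_facet`. Nonempty: `toR v`. Convex: intersection of `P` with a hyperplane. Extreme in `P`: the affine function
`f z = toR (u v i) ⬝ᵥ (z - toR v)` is `≥ 0` on `P` (`D.cone`); if `z` is in the open segment of `p, q ∈ P` and `f z = 0` then
`f p = f q = 0` (the definition of `IsExtreme` in Mathlib: unfold; it may ask only for one of the end points).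
Dimension: `vectorSpan` of `Gf` equals the kernel of the linear form `toR (u v i) ⬝ᵥ ·`, of dimension `d - 1` (`d ≥ 1` because of
`i : Fin d`; the form is nonzero, its value at `toR (e v i)` is `1`; rank-nullity
`LinearMap.finrank_range_add_finrank_ker`). `≤`: differences of points of `Gf` are in the kernel
(`vectorSpan` is the span of differences). `≥`: for `j ≠ i` the point `toR (v + e v j)` is in `Gf` (`D.mem`, `D.dual`, `toR_dot`), so
`toR (e v j)` is in the `vectorSpan`; a vector `x` of the kernel is `∑ j, (toR (u v j) ⬝ᵥ x) • toR (e v j)` (`D.span`) and the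
coefficient of `j = i` is `0`.

PROOF of `gf_dual`. Let `p ∈ D.Vt` with `toR p ∈ Gf D v i`. For `l` let `c l = u v i ⬝ᵥ e p l` (an integer). `c l ≥ 0`, because
`toR (p + e p l) ∈ P` and `f (toR (p + e p l)) = f (toR p) + c l = c l`. For every real `x`,
`toR (u v i) ⬝ᵥ x = ∑ l, (toR (u p l) ⬝ᵥ x) * c l` (`D.span` at `p`). For `z ∈ Gf`: `0 = f z = f z - f (toR p) = ∑ l, c l * (toR (u p l) ⬝ᵥ (z - toR p))`
with all terms `≥ 0` (`D.cone`): so `c l > 0` implies `toR (u p l) ⬝ᵥ (z - toR p) = 0` for all `z ∈ Gf`. Apply it to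
`z = toR v` and `z = toR (v + e v j)`, `j ≠ i` (points of `Gf`): `c l > 0` implies `u p l ⬝ᵥ e v j = 0` for all `j ≠ i`, so by
`D.span` at `v`, `u p l = a l • u v i` with `a l = u p l ⬝ᵥ e v i` (as linear forms: `toR (u p l) ⬝ᵥ x = ∑ j, (toR (u v j) ⬝ᵥ x) * (u p l ⬝ᵥ e v j)`).
Two indices `l ≠ l'` with `c l, c l' > 0` are impossible: `u p l, u p l'` both multiples of `u v i`, then
`0 = u p l ⬝ᵥ e p l' = a l * c l'` gives `a l = 0`, contradicting `1 = u p l ⬝ᵥ e p l = a l * c l`. Some `l` has `c l > 0`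
(otherwise `u v i = 0` as a form, but `u v i ⬝ᵥ e v i = 1`). For this `l`: `a l * c l = 1`, `c l > 0` integers, so `c l = a l = 1` and
`u p l = u v i`.
-/

namespace H19OZ

open H66OD Matrix

variable {d : ℕ} {P : Set (Fin d → ℝ)}

/-- The facet of `P` with inner normal `u v i` through the vertex `v`. -/
def Gf (D : SD P) (v : Fin d → ℤ) (i : Fin d) : Set (Fin d → ℝ) :=
  {z | z ∈ P ∧ toR (D.u v i) ⬝ᵥ (z - toR v) = 0}

private theorem Fac_ue (D : SD P) {v : Fin d → ℤ} (hv : v ∈ D.Vt) (i j : Fin d) :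
    toR (D.u v i) ⬝ᵥ toR (D.e v j) = if i = j then (1 : ℝ) else 0 := by
  rw [toR_dot, D.dual v hv i j]
  split_ifs <;> simp

private theorem Fac_mem (D : SD P) {v : Fin d → ℤ} (hv : v ∈ D.Vt) {i j : Fin d} (h : i ≠ j) :
    toR (v + D.e v j) ∈ Gf D v i := by
  refine ⟨D.mem v hv j, ?_⟩
  rw [toR_add, add_sub_cancel_left, Fac_ue D hv, if_neg h]

private theorem Fac_self (D : SD P) {v : Fin d → ℤ} (hv : v ∈ D.Vt) (i : Fin d) :
    toR v ∈ Gf D v i := by
  refine ⟨D.vmem hv, ?_⟩
  rw [sub_self, dotProduct_zero]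

theorem gf_facet (D : SD P) {v : Fin d → ℤ} (hv : v ∈ D.Vt) (i : Fin d) :
    IsFacet P (Gf D v i) := by
  have haff : ∀ (a b : ℝ) (x y : Fin d → ℝ), a + b = 1 →
      toR (D.u v i) ⬝ᵥ (a • x + b • y - toR v) =
        a * (toR (D.u v i) ⬝ᵥ (x - toR v)) + b * (toR (D.u v i) ⬝ᵥ (y - toR v)) := by
    intro a b x y hab
    have e1 : a • x + b • y - toR v = a • (x - toR v) + b • (y - toR v) := by
      have e2 : toR v = (a + b) • toR v := by rw [hab, one_smul]
      conv_lhs => rw [e2]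
      rw [smul_sub, smul_sub, add_smul]
      abel
    rw [e1, dotProduct_add, dotProduct_smul, dotProduct_smul, smul_eq_mul, smul_eq_mul]
  refine ⟨⟨toR v, Fac_self D hv i⟩, ?_, ⟨fun z hz => hz.1, ?_⟩, ?_⟩
  · intro x hx y hy a b ha hb hab
    refine ⟨D.convex hx.1 hy.1 ha hb hab, ?_⟩
    rw [haff a b x y hab, hx.2, hy.2]
    ring
  · rintro x hx y hy z hz ⟨a, b, ha, hb, hab, rfl⟩
    refine ⟨hx, ?_⟩
    have h1 := hz.2
    rw [haff a b x y hab] at h1
    have h2 := D.cone v hv i x hx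
    have h3 := D.cone v hv i y hy
    nlinarith [mul_nonneg ha.le h2, mul_nonneg hb.le h3]
  · set φ : (Fin d → ℝ) →ₗ[ℝ] ℝ :=
      { toFun := fun x => toR (D.u v i) ⬝ᵥ x
        map_add' := fun x y => dotProduct_add _ _ _
        map_smul' := fun c x => by rw [dotProduct_smul]; rfl } with hφ
    have hφa : ∀ x, φ x = toR (D.u v i) ⬝ᵥ x := fun _ => rfl
    have hker : vectorSpan ℝ (Gf D v i) = LinearMap.ker φ := by
      refine le_antisymm ?_ ?_
      · rw [vectorSpan_def, Submodule.span_le]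
        rintro w ⟨x, hx, y, hy, rfl⟩
        rw [SetLike.mem_coe, LinearMap.mem_ker, hφa]
        have e1 : x -ᵥ y = (x - toR v) - (y - toR v) := by
          rw [vsub_eq_sub]
          abel
        beta_reduce
        rw [e1, dotProduct_sub, hx.2, hy.2, sub_zero]
      · intro x hx
        rw [LinearMap.mem_ker, hφa] at hx
        rw [D.span v hv x]
        refine Submodule.sum_mem _ fun j _ => ?_
        by_cases h : i = j
        · subst h
          rw [hx, zero_smul]
          exact Submodule.zero_mem _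
        · refine Submodule.smul_mem _ _ ?_
          have h1 := vsub_mem_vectorSpan ℝ (Fac_mem D hv h) (Fac_self D hv i)
          rwa [vsub_eq_sub, toR_add, add_sub_cancel_left] at h1
    rw [hker]
    have hone : φ (toR (D.e v i)) = 1 := by
      rw [hφa, Fac_ue D hv, if_pos rfl]
    have hsurj : LinearMap.range φ = ⊤ := by
      rw [LinearMap.range_eq_top]
      intro c
      refine ⟨c • toR (D.e v i), ?_⟩
      rw [map_smul, hone, smul_eq_mul, mul_one]
    have h1 := LinearMap.finrank_range_add_finrank_ker φ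
    rw [hsurj, finrank_top, Module.finrank_self, Module.finrank_fin_fun] at h1
    omega

theorem gf_dual (D : SD P) {v p : Fin d → ℤ} (hv : v ∈ D.Vt) (hp : p ∈ D.Vt) (i : Fin d)
    (h : toR p ∈ Gf D v i) : ∃ l, D.u p l = D.u v i := by
  have hc0 : ∀ l, (0 : ℝ) ≤ ((D.u v i ⬝ᵥ D.e p l : ℤ) : ℝ) := by
    intro l
    have h1 := D.cone v hv i _ (D.mem p hp l)
    have e1 : toR (p + D.e p l) - toR v = (toR p - toR v) + toR (D.e p l) := by
      rw [toR_add]
      abel
    rw [e1, dotProduct_add, h.2, zero_add, toR_dot] at h1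
    exact h1
  have hdec : ∀ x, toR (D.u v i) ⬝ᵥ x =
      ∑ l, (toR (D.u p l) ⬝ᵥ x) * ((D.u v i ⬝ᵥ D.e p l : ℤ) : ℝ) := by
    intro x
    conv_lhs => rw [D.span p hp x]
    rw [dotProduct_sum]
    refine Finset.sum_congr rfl fun l _ => ?_
    rw [dotProduct_smul, smul_eq_mul, toR_dot]
  have hzero : ∀ z ∈ Gf D v i, ∀ l, 0 < D.u v i ⬝ᵥ D.e p l →
      toR (D.u p l) ⬝ᵥ (z - toR p) = 0 := by
    intro z hz l hl
    have h1 : toR (D.u v i) ⬝ᵥ (z - toR p) = 0 := by
      have e1 : z - toR p = (z - toR v) - (toR p - toR v) := by abel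
      rw [e1, dotProduct_sub, hz.2, h.2, sub_zero]
    rw [hdec, Finset.sum_eq_zero_iff_of_nonneg
      (fun l _ => mul_nonneg (D.cone p hp l z hz.1) (hc0 l))] at h1
    rcases mul_eq_zero.1 (h1 l (Finset.mem_univ _)) with h2 | h2
    · exact h2
    · exfalso
      have h3 : D.u v i ⬝ᵥ D.e p l = 0 := by exact_mod_cast h2
      omega
  have horth : ∀ l, 0 < D.u v i ⬝ᵥ D.e p l → ∀ j, i ≠ j →
      toR (D.u p l) ⬝ᵥ toR (D.e v j) = 0 := by
    intro l hl j hj
    have h1 := hzero _ (Fac_self D hv i) l hl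
    have h2 := hzero _ (Fac_mem D hv hj) l hl
    have e1 : toR (D.e v j) = (toR (v + D.e v j) - toR p) - (toR v - toR p) := by
      rw [toR_add]
      abel
    rw [e1, dotProduct_sub, h1, h2, sub_zero]
  have hmul : ∀ l, 0 < D.u v i ⬝ᵥ D.e p l → ∀ x, toR (D.u p l) ⬝ᵥ x =
      (toR (D.u v i) ⬝ᵥ x) * ((D.u p l ⬝ᵥ D.e v i : ℤ) : ℝ) := by
    intro l hl x
    conv_lhs => rw [D.span v hv x]
    rw [dotProduct_sum, Finset.sum_eq_single i]
    · rw [dotProduct_smul, smul_eq_mul, toR_dot]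
    · intro j _ hj
      rw [dotProduct_smul, horth l hl j (Ne.symm hj), smul_zero]
    · intro h'
      exact absurd (Finset.mem_univ _) h'
  obtain ⟨l, hl⟩ : ∃ l, 0 < D.u v i ⬝ᵥ D.e p l := by
    by_contra hcon
    push Not at hcon
    have h1 := hdec (toR (D.e v i))
    rw [Fac_ue D hv, if_pos rfl, Finset.sum_eq_zero] at h1
    · exact one_ne_zero h1
    · intro l _
      have h2 := hc0 l
      have h3 : (0 : ℤ) ≤ D.u v i ⬝ᵥ D.e p l := by exact_mod_cast h2
      have h4 : D.u v i ⬝ᵥ D.e p l = 0 := le_antisymm (hcon l) h3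
      rw [h4, Int.cast_zero, mul_zero]
  refine ⟨l, ?_⟩
  have h1 := hmul l hl (toR (D.e p l))
  rw [Fac_ue D hp, if_pos rfl, toR_dot] at h1
  have h2 : (D.u v i ⬝ᵥ D.e p l) * (D.u p l ⬝ᵥ D.e v i) = 1 := by exact_mod_cast h1.symm
  have h3 : D.u p l ⬝ᵥ D.e v i = 1 := by
    rcases Int.eq_one_or_neg_one_of_mul_eq_one h2 with h4 | h4
    · rw [h4, one_mul] at h2
      exact h2
    · omega
  apply toR_injective
  funext j
  have h4 := hmul l hl (Pi.single j 1)
  rw [h3, Int.cast_one, mul_one, dotProduct_single, dotProduct_single, mul_one, mul_one] at h4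
  exact h4

end H19OZ
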