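import Pool.Agent.H19.OZ.HD

/-!
# Row Face (about 150 lines): the minimal face containing a point

`Fc P y = {z ∈ P | ∃ ε > 0, y + ε • (y - z) ∈ P}` is the minimal face of `P` containing `y ∈ P`.

(Supp) If `y' ∈ Fc P y` and `y' = ∑ c v • toR v` is a convex combination of `D.Vt` then every `v` with `c v > 0` has
`toR v ∈ Fc P y`: `q := y + ε (y - y') ∈ P`, so `y = (1/(1+ε)) q + (ε/(1+ε)) y'` is a convex combination
`a • toR v + (1 - a) • r` with `a = ε c v/(1+ε) ∈ (0,1)`, `r ∈ P` (the normalised rest of the combination, points of the convex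
set `P`), and `y + ε' (y - toR v) = r ∈ P` for `ε' = a/(1-a)`: indeed `y + (a/(1-a)) (y - v) = (y - a v)/(1-a) = r`.

`fc_vertex`: `y ∈ Fc P y`; `y ∈ P = conv`, some coefficient is positive; (Supp).
`fc_tight`: the affine function `f z = toR (u v j) ⬝ᵥ (z - toR v)` is `≥ 0` on `P` (`D.cone`), so `f z ≥ 0` and
`f (y + ε (y - z)) = (1+ε) f y - ε f z = - ε f z ≥ 0`; so `f z = 0`.
`fc_of_tight`: check `y + ε (y - z) ∈ P` for small `ε > 0` with `D.mem_of_cone`: for each `v' ∈ D.Vt` and `i` let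
`f' p = toR (u v' i) ⬝ᵥ (p - toR v') ≥ 0` on `P`. `f' (y + ε (y - z)) = f' y + ε (f' y - f' z)`. If `f' y > 0` this is `≥ 0` for
`ε ≤ f' y / (1 + f' z)`. If `f' y = 0`: `toR v ∈ Fc P y` gives `f' (toR v) = 0` (same computation as `fc_tight`), so for all `p`
`f' p = toR (u v' i) ⬝ᵥ (p - toR v) = ∑ j, (toR (u v j) ⬝ᵥ (p - toR v)) * a j`, `a j = toR (u v' i) ⬝ᵥ toR (e v j) = f' (v + e v j) ≥ 0`
(`D.span`, `D.mem`). `f' y = 0` and all terms `≥ 0`: for each `j`, `a j = 0` or `toR (u v j) ⬝ᵥ (y - toR v) = 0`, and in the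
second case `toR (u v j) ⬝ᵥ (z - toR v) = 0` by hypothesis. So `f' z = 0` and `f' (y + ε (y - z)) = 0`. Take the minimum of
finitely many `ε`'s (`D.Vt` and `Fin d` finite; for example by `Finset.exists_min_image` or by filter `eventually`).
`fc_lp`: let `V = D.Vt.filter (toR v ∈ Fc P y)`, nonempty by `fc_vertex`; `v ∈ V` minimising `n ⬝ᵥ toR v`. For
`z ∈ Fc P y`, `z = ∑ c v' • toR v'`, only `v' ∈ V` have `c v' > 0` (Supp), so `n ⬝ᵥ z ≥ n ⬝ᵥ toR v`.
-/

namespace H19OZ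

open H66OD Matrix

variable {d : ℕ} {P : Set (Fin d → ℝ)}

/-- The minimal face of `P` containing `y`. -/
def Fc (P : Set (Fin d → ℝ)) (y : Fin d → ℝ) : Set (Fin d → ℝ) :=
  {z | z ∈ P ∧ ∃ ε : ℝ, 0 < ε ∧ y + ε • (y - z) ∈ P}

private theorem Face_rep (D : SD P) {y : Fin d → ℝ} (hy : y ∈ P) :
    ∃ c : (Fin d → ℤ) → ℝ, (∀ v ∈ D.Vt, 0 ≤ c v) ∧ ∑ v ∈ D.Vt, c v = 1 ∧
      ∑ v ∈ D.Vt, c v • toR v = y := by
  classical
  rw [D.hull, ← Finset.coe_image, Finset.mem_convexHull'] at hy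
  obtain ⟨w, h0, h1, h2⟩ := hy
  refine ⟨fun v => w (toR v), fun v hv => h0 _ (Finset.mem_image_of_mem _ hv), ?_, ?_⟩
  · rw [← h1, Finset.sum_image (fun a _ b _ h => toR_injective h)]
  · rw [← h2, Finset.sum_image (fun a _ b _ h => toR_injective h)]

private theorem Face_supp (D : SD P) {y y' : Fin d → ℝ} (hy' : y' ∈ Fc P y)
    {c : (Fin d → ℤ) → ℝ} (h0 : ∀ v ∈ D.Vt, 0 ≤ c v) (h1 : ∑ v ∈ D.Vt, c v = 1)
    (h2 : ∑ v ∈ D.Vt, c v • toR v = y') {v : Fin d → ℤ} (hv : v ∈ D.Vt) (hc : 0 < c v) :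
    toR v ∈ Fc P y := by
  classical
  obtain ⟨_, ε, hε, hq⟩ := hy'
  refine ⟨D.vmem hv, ?_⟩
  obtain ⟨q, hq0, hq1, hq2⟩ := Face_rep D hq
  have hc1 : c v ≤ 1 := by
    rw [← h1]
    exact Finset.single_le_sum h0 hv
  have hden : 0 < 1 + ε - ε * c v := by nlinarith
  obtain ⟨l, hl⟩ : ∃ l : ℝ, l = (1 + ε - ε * c v)⁻¹ := ⟨_, rfl⟩
  have hlpos : 0 < l := by rw [hl]; exact inv_pos.2 hden
  have hl1 : l * (1 + ε - ε * c v) = 1 := by rw [hl]; exact inv_mul_cancel₀ hden.ne'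
  refine ⟨ε * c v * l, by positivity, ?_⟩
  have hs1 : ∑ v' ∈ D.Vt, (if v' = v then 0 else ε * l * c v') = ε * l * (1 - c v) := by
    rw [← Finset.add_sum_erase _ _ hv, if_pos rfl, zero_add]
    have : ∑ v' ∈ D.Vt.erase v, (if v' = v then 0 else ε * l * c v') =
        ∑ v' ∈ D.Vt.erase v, ε * l * c v' :=
      Finset.sum_congr rfl fun x hx => if_neg (Finset.ne_of_mem_erase hx)
    rw [this, ← Finset.mul_sum, ← h1, ← Finset.add_sum_erase _ _ hv, add_sub_cancel_left]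
  have hs2 : ∑ v' ∈ D.Vt, (if v' = v then 0 else ε * l * c v') • (toR v' : Fin d → ℝ) =
      (ε * l) • (y' - c v • toR v) := by
    rw [← Finset.add_sum_erase _ _ hv, if_pos rfl, zero_smul, zero_add]
    have : ∑ v' ∈ D.Vt.erase v, (if v' = v then 0 else ε * l * c v') • (toR v' : Fin d → ℝ) =
        ∑ v' ∈ D.Vt.erase v, (ε * l) • (c v' • toR v') :=
      Finset.sum_congr rfl fun x hx => by rw [if_neg (Finset.ne_of_mem_erase hx), mul_smul]
    rw [this, ← Finset.smul_sum, ← h2, ← Finset.add_sum_erase _ _ hv, add_sub_cancel_left]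
  have hmem := D.convex.sum_mem (t := D.Vt)
    (w := fun v' => l * q v' + if v' = v then 0 else ε * l * c v') (z := fun v' => toR v')
    (fun v' hv' => by
      have := hq0 v' hv'
      have := h0 v' hv'
      split_ifs <;> positivity)
    (by
      rw [Finset.sum_add_distrib, hs1, ← Finset.mul_sum, hq1]
      linear_combination hl1)
    (fun v' hv' => D.vmem hv')
  have heq : ∑ v' ∈ D.Vt, (l * q v' + if v' = v then 0 else ε * l * c v') •
      (toR v' : Fin d → ℝ) = y + (ε * c v * l) • (y - toR v) := by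
    simp only [add_smul]
    rw [Finset.sum_add_distrib, hs2]
    have : ∑ v' ∈ D.Vt, (l * q v') • (toR v' : Fin d → ℝ) = l • (y + ε • (y - y')) := by
      rw [← hq2, Finset.smul_sum]
      exact Finset.sum_congr rfl fun x _ => by rw [mul_smul]
    rw [this]
    ext i
    simp only [Pi.add_apply, Pi.smul_apply, Pi.sub_apply, smul_eq_mul]
    linear_combination (y i) * hl1
  rw [← heq]
  exact hmem

theorem fc_vertex (D : SD P) {y : Fin d → ℝ} (hy : y ∈ P) : ∃ v ∈ D.Vt, toR v ∈ Fc P y := by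
  have hyF : y ∈ Fc P y := ⟨hy, 1, one_pos, by rwa [sub_self, smul_zero, add_zero]⟩
  obtain ⟨c, h0, h1, h2⟩ := Face_rep D hy
  have : ∃ v ∈ D.Vt, 0 < c v := by
    by_contra h
    push Not at h
    have : ∑ v ∈ D.Vt, c v ≤ 0 := Finset.sum_nonpos h
    rw [h1] at this
    linarith
  obtain ⟨v, hv, hc⟩ := this
  exact ⟨v, hv, Face_supp D hyF h0 h1 h2 hv hc⟩

private theorem Face_dot (n y z w : Fin d → ℝ) (ε : ℝ) :
    n ⬝ᵥ (y + ε • (y - z) - w) = (1 + ε) * (n ⬝ᵥ (y - w)) - ε * (n ⬝ᵥ (z - w)) := by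
  simp only [dotProduct_sub, dotProduct_add, dotProduct_smul, smul_eq_mul]
  ring

theorem fc_tight (D : SD P) {y z : Fin d → ℝ} (hz : z ∈ Fc P y) {v : Fin d → ℤ}
    (hv : v ∈ D.Vt) {j : Fin d} (hj : toR (D.u v j) ⬝ᵥ (y - toR v) = 0) :
    toR (D.u v j) ⬝ᵥ (z - toR v) = 0 := by
  obtain ⟨hzP, ε, hε, hq⟩ := hz
  have h1 := D.cone v hv j z hzP
  have h2 := D.cone v hv j _ hq
  rw [Face_dot, hj, mul_zero, zero_sub] at h2
  have h3 : toR (D.u v j) ⬝ᵥ (z - toR v) ≤ 0 := by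
    by_contra h
    push Not at h
    have := mul_pos hε h
    linarith
  exact le_antisymm h3 h1

theorem fc_of_tight (D : SD P) {y z : Fin d → ℝ} (hy : y ∈ P) (hz : z ∈ P) {v : Fin d → ℤ}
    (hv : v ∈ D.Vt) (hvF : toR v ∈ Fc P y)
    (h : ∀ j, toR (D.u v j) ⬝ᵥ (y - toR v) = 0 → toR (D.u v j) ⬝ᵥ (z - toR v) = 0) :
    z ∈ Fc P y := by
  refine ⟨hz, ?_⟩
  have key : ∀ v' ∈ D.Vt, ∀ i : Fin d, ∀ᶠ ε : ℝ in nhdsWithin 0 (Set.Ioi 0),
      0 ≤ toR (D.u v' i) ⬝ᵥ (y + ε • (y - z) - toR v') := by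
    intro v' hv' i
    have hfy := D.cone v' hv' i y hy
    have hfz := D.cone v' hv' i z hz
    rcases hfy.eq_or_lt with h0 | hpos
    · have hvz := fc_tight D hvF hv' h0.symm
      have hexp : ∀ p : Fin d → ℝ, toR (D.u v' i) ⬝ᵥ (p - toR v') =
          ∑ j, (toR (D.u v j) ⬝ᵥ (p - toR v)) * (toR (D.u v' i) ⬝ᵥ toR (D.e v j)) := by
        intro p
        have h3 : p - toR v' = (p - toR v) + (toR v - toR v') := by abel
        rw [h3, dotProduct_add, hvz, add_zero]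
        conv_lhs => rw [D.span v hv (p - toR v)]
        rw [dotProduct_sum]
        exact Finset.sum_congr rfl fun j _ => by rw [dotProduct_smul, smul_eq_mul]
      have ha : ∀ j, 0 ≤ toR (D.u v' i) ⬝ᵥ toR (D.e v j) := by
        intro j
        have h4 := D.cone v' hv' i _ (D.mem v hv j)
        have h5 : toR (v + D.e v j) - toR v' = (toR v - toR v') + toR (D.e v j) := by
          rw [toR_add]
          abel
        rwa [h5, dotProduct_add, hvz, zero_add] at h4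
      have hterm : ∀ j ∈ Finset.univ, (toR (D.u v j) ⬝ᵥ (y - toR v)) *
          (toR (D.u v' i) ⬝ᵥ toR (D.e v j)) = 0 := by
        rw [← Finset.sum_eq_zero_iff_of_nonneg, ← hexp, ← h0]
        intro j _
        exact mul_nonneg (D.cone v hv j y hy) (ha j)
      have hz0 : toR (D.u v' i) ⬝ᵥ (z - toR v') = 0 := by
        rw [hexp]
        refine Finset.sum_eq_zero fun j hj => ?_
        rcases mul_eq_zero.1 (hterm j hj) with h6 | h6
        · rw [h j h6, zero_mul]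
        · rw [h6, mul_zero]
      refine Filter.Eventually.of_forall fun ε => ?_
      rw [Face_dot, ← h0, hz0]
      simp
    · have hδ : 0 < (toR (D.u v' i) ⬝ᵥ (y - toR v')) / (1 + toR (D.u v' i) ⬝ᵥ (z - toR v')) := by
        positivity
      filter_upwards [Ioc_mem_nhdsGT hδ] with ε hε
      rw [Face_dot]
      have h7 : ε * (1 + toR (D.u v' i) ⬝ᵥ (z - toR v')) ≤ toR (D.u v' i) ⬝ᵥ (y - toR v') :=
        (le_div_iff₀ (by positivity)).1 hε.2
      have h8 := mul_pos hε.1 hpos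
      nlinarith [hε.1]
  have hall : ∀ᶠ ε : ℝ in nhdsWithin 0 (Set.Ioi 0), ∀ v' ∈ D.Vt, ∀ i : Fin d,
      0 ≤ toR (D.u v' i) ⬝ᵥ (y + ε • (y - z) - toR v') := by
    rw [Filter.eventually_all_finset]
    intro v' hv'
    rw [Filter.eventually_all]
    exact key v' hv'
  obtain ⟨ε, hε, hpos⟩ := (hall.and self_mem_nhdsWithin).exists
  exact ⟨ε, hpos, D.mem_of_cone _ hε⟩

theorem fc_lp (D : SD P) {y : Fin d → ℝ} (hy : y ∈ P) (n : Fin d → ℝ) :
    ∃ v ∈ D.Vt, toR v ∈ Fc P y ∧ ∀ z ∈ Fc P y, n ⬝ᵥ toR v ≤ n ⬝ᵥ z := by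
  classical
  obtain ⟨v0, hv0, hv0F⟩ := fc_vertex D hy
  obtain ⟨v, hv, hmin⟩ := Finset.exists_min_image (D.Vt.filter fun v => toR v ∈ Fc P y)
    (fun v => n ⬝ᵥ toR v) ⟨v0, Finset.mem_filter.2 ⟨hv0, hv0F⟩⟩
  rw [Finset.mem_filter] at hv
  refine ⟨v, hv.1, hv.2, fun z hz => ?_⟩
  obtain ⟨c, h0, h1, h2⟩ := Face_rep D hz.1
  calc n ⬝ᵥ toR v = ∑ v' ∈ D.Vt, c v' * (n ⬝ᵥ toR v) := by
        rw [← Finset.sum_mul, h1, one_mul]
    _ ≤ ∑ v' ∈ D.Vt, c v' * (n ⬝ᵥ toR v') := by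
        refine Finset.sum_le_sum fun v' hv' => ?_
        rcases (h0 v' hv').eq_or_lt with h3 | h3
        · rw [← h3, zero_mul, zero_mul]
        · exact mul_le_mul_of_nonneg_left (hmin v' (Finset.mem_filter.2
            ⟨hv', Face_supp D hz h0 h1 h2 hv' h3⟩)) h3.le
    _ = n ⬝ᵥ z := by
        rw [← h2, dotProduct_sum]
        exact Finset.sum_congr rfl fun v' _ => by rw [dotProduct_smul, smul_eq_mul]

end H19OZ
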