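import Pool.Agent.H19.OZ.Fac

/-!
# Row Flg (about 200 lines): flag smooth polytopes contain their vertex parallelepipeds

PROOF. Let `v ∈ D.Vt`, `T` a finset of indices, `x = v + ∑ i ∈ T, e v i`, and suppose `toR x ∉ P`. For a pair `a = (v', j)`,
`v' ∈ D.Vt`, let `f a z = toR (u v' j) ⬝ᵥ (z - toR v')`; it is `≥ 0` on `P`. By `D.mem_of_cone` some pair has
`f a (toR x) < 0`. Among these finitely many pairs (finset `D.Vt ×ˢ univ`) take one, `a = (v', j)`, with `f a (toR v)` minimal.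
(1) `f a (toR v) > 0`: otherwise `f a (toR v) = 0`, `toR (u v' j) ⬝ᵥ toR (e v i) = f a (toR (v + e v i)) ≥ 0` for all `i`, and
`f a (toR x) = ∑ i ∈ T, ... ≥ 0`.
(2) Some `i` has `Gf D v i ∩ Gf D v' j = ∅`. Otherwise the finite family `{Gf D v' j} ∪ {Gf D v i | i}` consists of facets
(`gf_facet`), pairwise intersecting (`toR v ∈ Gf D v i` for all `i`; `Gf D v' j` is nonempty); by `IsFlag` there is `z ∈ P` in all of
them. Then `toR (u v i) ⬝ᵥ (z - toR v) = 0` for all `i`, so `z = toR v` (`D.span`), and `f a (toR v) = 0`, contradicting (1).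
(Use the finset `insert (Gf D v' j) (Finset.univ.image (Gf D v))`, classical decidable equality.)
(3) Fix this `i`. Let `p ∈ D.Vt` with `toR p ∈ Gf D v i` minimise `f a` over the set `Gf D v i`, that is `f a (toR p) ≤ f a z` for all
`z ∈ Gf D v i`: take `p` minimising `f a` over the finset `{p ∈ D.Vt | toR p ∈ Gf D v i}` (contains `v`); every `z ∈ Gf D v i` is a
convex combination of `D.Vt` (`D.hull`), and since `toR (u v i) ⬝ᵥ (· - toR v) ≥ 0` on `P` and it is `0` at `z`, only vertices in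
`Gf D v i` have a positive coefficient.
(4) `f a (toR p) ≥ 1`: it is an integer (`toR_dot`), `≥ 0`, and not `0` by (2) (`toR p ∈ P`).
(5) By `gf_dual`, `u p l0 = u v i` for some `l0`. For `l ≠ l0`: `toR (p + e p l) ∈ Gf D v i` (`u v i ⬝ᵥ e p l = u p l0 ⬝ᵥ e p l = 0` and
`toR p ∈ Gf`), so `c l := toR (u v' j) ⬝ᵥ toR (e p l) = f a (toR (p + e p l)) - f a (toR p) ≥ 0`. For all `z`:
`f a z = f a (toR p) + ∑ l, (toR (u p l) ⬝ᵥ (z - toR p)) * c l` (`D.span` at `p`).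
(6) `z = toR x`: `toR (u p l0) ⬝ᵥ (toR x - toR p) = toR (u v i) ⬝ᵥ (toR x - toR v)` (because `toR p ∈ Gf D v i`) is `1` if `i ∈ T` and `0`
otherwise. `f a (toR p) + 0 * c l0 ≥ 0` and `f a (toR p) + 1 * c l0 = f a (toR (p + e p l0)) ≥ 0`. So
`0 > f a (toR x) ≥ ∑ l ≠ l0, (toR (u p l) ⬝ᵥ (toR x - toR p)) * c l`: some `l ≠ l0` has `c l > 0` (hence `c l ≥ 1`, an integer) and
`f (p, l) (toR x) = toR (u p l) ⬝ᵥ (toR x - toR p) < 0`.
(7) `z = toR v`: `toR (u p l0) ⬝ᵥ (toR v - toR p) = 0`, so `f a (toR v) = f a (toR p) + ∑ l ≠ l0, f (p, l) (toR v) * c l ≥ 1 + f (p, l) (toR v)` for the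
`l` of (6) (all terms `≥ 0`, `c l ≥ 1`). So `(p, l)` is a violated pair with `f (p, l) (toR v) < f a (toR v)`: contradiction.
-/

namespace H19OZ

open H66OD Matrix

variable {d : ℕ} {P : Set (Fin d → ℝ)}

theorem Flg_dot_sub (n x y z : Fin d → ℝ) : n ⬝ᵥ (x - z) = n ⬝ᵥ (x - y) + n ⬝ᵥ (y - z) := by
  rw [← dotProduct_add]
  congr 1
  abel

theorem Flg_comb {ι : Type*} (s : Finset ι) (w : ι → ℝ) (y : ι → Fin d → ℝ) (hw : ∑ i ∈ s, w i = 1)
    (n c : Fin d → ℝ) : n ⬝ᵥ (∑ i ∈ s, w i • y i - c) = ∑ i ∈ s, w i * (n ⬝ᵥ (y i - c)) := by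
  have h1 : ∑ i ∈ s, w i • y i - c = ∑ i ∈ s, w i • (y i - c) := by
    simp only [smul_sub, Finset.sum_sub_distrib]
    rw [← Finset.sum_smul, hw, one_smul]
  rw [h1, dotProduct_sum]
  refine Finset.sum_congr rfl fun i _ => ?_
  rw [dotProduct_smul, smul_eq_mul]

/-- A form `f`, nonnegative constant bound at the vertices of a face, holds on the face. -/
theorem Flg_face (D : SD P) (n c m c' : Fin d → ℝ) (b : ℝ)
    (hg : ∀ z ∈ P, 0 ≤ n ⬝ᵥ (z - c))
    (hb : ∀ q ∈ D.Vt, n ⬝ᵥ (toR q - c) = 0 → b ≤ m ⬝ᵥ (toR q - c')) :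
    ∀ z ∈ P, n ⬝ᵥ (z - c) = 0 → b ≤ m ⬝ᵥ (z - c') := by
  classical
  intro z hz hz0
  have hz' : z ∈ convexHull ℝ ((D.Vt.image toR : Finset (Fin d → ℝ)) : Set (Fin d → ℝ)) := by
    rw [Finset.coe_image, ← D.hull]
    exact hz
  rw [Finset.mem_convexHull'] at hz'
  obtain ⟨w, hw0, hw1, hwz⟩ := hz'
  have hmem : ∀ y ∈ D.Vt.image toR, y ∈ P := by
    intro y hy
    obtain ⟨q, hq, rfl⟩ := Finset.mem_image.1 hy
    exact D.vmem hq
  have h1 : ∑ y ∈ D.Vt.image toR, w y * (n ⬝ᵥ (y - c)) = 0 := by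
    rw [← Flg_comb _ w (fun y => y) hw1, hwz, hz0]
  have h2 : ∀ y ∈ D.Vt.image toR, w y * (n ⬝ᵥ (y - c)) = 0 :=
    (Finset.sum_eq_zero_iff_of_nonneg fun y hy =>
      mul_nonneg (hw0 y hy) (hg y (hmem y hy))).1 h1
  have h3 : m ⬝ᵥ (z - c') = ∑ y ∈ D.Vt.image toR, w y * (m ⬝ᵥ (y - c')) := by
    rw [← Flg_comb _ w (fun y => y) hw1, hwz]
  rw [h3]
  calc b = ∑ y ∈ D.Vt.image toR, w y * b := by rw [← Finset.sum_mul, hw1, one_mul]
    _ ≤ _ := by
      refine Finset.sum_le_sum fun y hy => ?_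
      rcases mul_eq_zero.1 (h2 y hy) with h | h
      · rw [h, zero_mul, zero_mul]
      · obtain ⟨q, hq, rfl⟩ := Finset.mem_image.1 hy
        exact mul_le_mul_of_nonneg_left (hb q hq h) (hw0 _ hy)

theorem SD.box_of_flag (D : SD P) (h : IsFlag P) : D.Box := by
  classical
  intro v hv T
  by_contra hx
  set x := v + ∑ i ∈ T, D.e v i with hxdef
  set f : ((Fin d → ℤ) × Fin d) → (Fin d → ℝ) → ℝ := fun a z => toR (D.u a.1 a.2) ⬝ᵥ (z - toR a.1)
    with hf
  have fadd : ∀ a (q e : Fin d → ℤ), f a (toR (q + e)) = f a (toR q) + toR (D.u a.1 a.2) ⬝ᵥ toR e := by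
    intro a q e
    simp only [hf]
    rw [toR_add, ← dotProduct_add]
    congr 1
    abel
  have fnn : ∀ a, a.1 ∈ D.Vt → ∀ z ∈ P, 0 ≤ f a z := fun a ha z hz => D.cone a.1 ha a.2 z hz
  set S : Finset ((Fin d → ℤ) × Fin d) :=
    (D.Vt ×ˢ Finset.univ).filter fun a => f a (toR x) < 0 with hS
  have hSne : S.Nonempty := by
    by_contra hcon
    rw [Finset.not_nonempty_iff_eq_empty] at hcon
    apply hx
    refine D.mem_of_cone _ fun q hq i => ?_
    by_contra hneg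
    have : (q, i) ∈ S := by
      rw [hS, Finset.mem_filter, Finset.mem_product]
      exact ⟨⟨hq, Finset.mem_univ _⟩, not_le.1 hneg⟩
    rw [hcon] at this
    simp at this
  obtain ⟨a, haS, hamin⟩ := Finset.exists_min_image S (fun a => f a (toR v)) hSne
  have haS' := Finset.mem_filter.1 haS
  have haV : a.1 ∈ D.Vt := (Finset.mem_product.1 haS'.1).1
  have hax : f a (toR x) < 0 := haS'.2
  have hvP : toR v ∈ P := D.vmem hv
  -- (1)
  have h1 : 0 < f a (toR v) := by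
    by_contra hcon
    have h0 : f a (toR v) = 0 := le_antisymm (not_lt.1 hcon) (fnn a haV _ hvP)
    have h2 : ∀ i, 0 ≤ toR (D.u a.1 a.2) ⬝ᵥ toR (D.e v i) := by
      intro i
      have h3 := fnn a haV _ (D.mem v hv i)
      rw [fadd, h0, zero_add] at h3
      exact h3
    have h4 : f a (toR x) = ∑ i ∈ T, toR (D.u a.1 a.2) ⬝ᵥ toR (D.e v i) := by
      rw [hxdef, fadd, h0, zero_add, toR_sum, dotProduct_sum]
    have h5 : 0 ≤ f a (toR x) := by
      rw [h4]
      exact Finset.sum_nonneg fun i _ => h2 i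
    linarith
  -- (2)
  have h2 : ∃ i, Gf D v i ∩ Gf D a.1 a.2 = ∅ := by
    by_contra hcon
    push Not at hcon
    have hcon' : ∀ i, (Gf D v i ∩ Gf D a.1 a.2).Nonempty := fun i =>
      Set.nonempty_iff_ne_empty.2 (by simpa [Set.nonempty_iff_ne_empty] using hcon i)
    have hvG : ∀ i, toR v ∈ Gf D v i := by
      intro i
      refine ⟨hvP, ?_⟩
      rw [sub_self, dotProduct_zero]
    obtain ⟨z, hzP, hz⟩ := h (insert (Gf D a.1 a.2) (Finset.univ.image (Gf D v))) (by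
      intro F hF
      rcases Finset.mem_insert.1 hF with rfl | hF
      · exact gf_facet D haV a.2
      · obtain ⟨i, -, rfl⟩ := Finset.mem_image.1 hF
        exact gf_facet D hv i) (by
      intro F hF F' hF'
      rcases Finset.mem_insert.1 hF with hF1 | hF1
      · rcases Finset.mem_insert.1 hF' with hF2 | hF2
        · rw [hF1, hF2, Set.inter_self]
          exact (gf_facet D haV a.2).1
        · obtain ⟨i, -, rfl⟩ := Finset.mem_image.1 hF2
          rw [hF1, Set.inter_comm]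
          exact hcon' i
      · obtain ⟨i, -, rfl⟩ := Finset.mem_image.1 hF1
        rcases Finset.mem_insert.1 hF' with hF2 | hF2
        · rw [hF2]
          exact hcon' i
        · obtain ⟨i', -, rfl⟩ := Finset.mem_image.1 hF2
          exact ⟨toR v, hvG i, hvG i'⟩)
    have hz1 : ∀ i, toR (D.u v i) ⬝ᵥ (z - toR v) = 0 := fun i =>
      (hz (Gf D v i) (Finset.mem_insert_of_mem (Finset.mem_image_of_mem _ (Finset.mem_univ i)))).2
    have hz2 : z - toR v = 0 := by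
      rw [D.span v hv (z - toR v)]
      refine Finset.sum_eq_zero fun i _ => ?_
      rw [hz1 i, zero_smul]
    have hz3 : z = toR v := sub_eq_zero.1 hz2
    have hz4 := (hz (Gf D a.1 a.2) (Finset.mem_insert_self _ _)).2
    rw [hz3] at hz4
    have : f a (toR v) = 0 := hz4
    linarith
  obtain ⟨i, hi⟩ := h2
  have hi' : ∀ z, z ∈ Gf D v i → z ∉ Gf D a.1 a.2 := by
    intro z hz hz'
    have : z ∈ Gf D v i ∩ Gf D a.1 a.2 := ⟨hz, hz'⟩
    rw [hi] at this
    exact this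
  -- (3)
  obtain ⟨p, hpF, hpmin⟩ := Finset.exists_min_image (D.Vt.filter fun p => toR p ∈ Gf D v i)
    (fun p => f a (toR p)) ⟨v, Finset.mem_filter.2 ⟨hv, hvP, by rw [sub_self, dotProduct_zero]⟩⟩
  obtain ⟨hpV, hpG⟩ := Finset.mem_filter.1 hpF
  have hpP : toR p ∈ P := hpG.1
  have h3 : ∀ z ∈ Gf D v i, f a (toR p) ≤ f a z := by
    intro z hz
    refine Flg_face D (toR (D.u v i)) (toR v) (toR (D.u a.1 a.2)) (toR a.1) _
      (fun z hz => D.cone v hv i z hz) ?_ z hz.1 hz.2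
    intro q hq hq0
    exact hpmin q (Finset.mem_filter.2 ⟨hq, D.vmem hq, hq0⟩)
  -- (4)
  have h4 : 1 ≤ f a (toR p) := by
    have e1 : f a (toR p) = ((D.u a.1 a.2 ⬝ᵥ (p - a.1) : ℤ) : ℝ) := by
      simp only [hf]
      rw [← toR_sub, toR_dot]
    have e2 := fnn a haV _ hpP
    have e3 : f a (toR p) ≠ 0 := fun h0 => hi' _ hpG ⟨hpP, h0⟩
    rw [e1] at e2 e3 ⊢
    have e4 : 0 ≤ D.u a.1 a.2 ⬝ᵥ (p - a.1) := by exact_mod_cast e2
    have e5 : D.u a.1 a.2 ⬝ᵥ (p - a.1) ≠ 0 := by exact_mod_cast e3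
    have e6 : 1 ≤ D.u a.1 a.2 ⬝ᵥ (p - a.1) := by omega
    exact_mod_cast e6
  -- (5)
  obtain ⟨l0, hl0⟩ := gf_dual D hv hpV i hpG
  set c : Fin d → ℝ := fun l => toR (D.u a.1 a.2) ⬝ᵥ toR (D.e p l) with hc
  have hc0 : ∀ l, l ≠ l0 → 0 ≤ c l := by
    intro l hl
    have e1 : toR (p + D.e p l) ∈ Gf D v i := by
      refine ⟨D.mem p hpV l, ?_⟩
      have e2 : toR (p + D.e p l) - toR v = (toR p - toR v) + toR (D.e p l) := by
        rw [toR_add]; abel
      rw [e2, dotProduct_add, hpG.2, zero_add, ← hl0, toR_dot, D.dual p hpV, if_neg (Ne.symm hl)]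
      simp
    have e3 := h3 _ e1
    rw [fadd] at e3
    simp only [hc]
    linarith
  have h5 : ∀ z, f a z = f a (toR p) + ∑ l, (toR (D.u p l) ⬝ᵥ (z - toR p)) * c l := by
    intro z
    have e1 : f a z = f a (toR p) + toR (D.u a.1 a.2) ⬝ᵥ (z - toR p) := by
      simp only [hf]
      rw [Flg_dot_sub _ z (toR p) (toR a.1)]
      ring
    rw [e1]
    congr 1
    conv_lhs => rw [D.span p hpV (z - toR p)]
    rw [dotProduct_sum]
    refine Finset.sum_congr rfl fun l _ => ?_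
    rw [dotProduct_smul, smul_eq_mul]
  -- (6)
  have hs0 : toR (D.u p l0) ⬝ᵥ (toR x - toR p) = if i ∈ T then 1 else 0 := by
    rw [hl0]
    have e1 : toR x - toR p = ∑ i' ∈ T, toR (D.e v i') - (toR p - toR v) := by
      rw [hxdef, toR_add, toR_sum]; abel
    rw [e1, dotProduct_sub, hpG.2, sub_zero, dotProduct_sum]
    have e2 : ∀ i' ∈ T, toR (D.u v i) ⬝ᵥ toR (D.e v i') = if i = i' then 1 else 0 := by
      intro i' _
      rw [toR_dot, D.dual v hv]
      split_ifs <;> simp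
    rw [Finset.sum_congr rfl e2, Finset.sum_ite_eq]
  have h6 : 0 ≤ f a (toR p) + (toR (D.u p l0) ⬝ᵥ (toR x - toR p)) * c l0 := by
    rw [hs0]
    split_ifs
    · rw [one_mul]
      have e1 := fnn a haV _ (D.mem p hpV l0)
      rw [fadd] at e1
      exact e1
    · linarith
  have h7 : ∃ l, l ≠ l0 ∧ (toR (D.u p l) ⬝ᵥ (toR x - toR p)) * c l < 0 := by
    by_contra hcon
    push Not at hcon
    have e1 := h5 (toR x)
    rw [← Finset.add_sum_erase _ _ (Finset.mem_univ l0)] at e1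
    have e2 : 0 ≤ ∑ l ∈ Finset.univ.erase l0, (toR (D.u p l) ⬝ᵥ (toR x - toR p)) * c l :=
      Finset.sum_nonneg fun l hl => hcon l (Finset.ne_of_mem_erase hl)
    linarith
  obtain ⟨l, hl, hneg⟩ := h7
  have hcl : 0 < c l := by
    rcases (hc0 l hl).lt_or_eq with h | h
    · exact h
    · rw [← h, mul_zero] at hneg
      exact absurd hneg (lt_irrefl _)
  have hcl1 : 1 ≤ c l := by
    have e1 : c l = ((D.u a.1 a.2 ⬝ᵥ D.e p l : ℤ) : ℝ) := by simp only [hc]; rw [toR_dot]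
    rw [e1] at hcl ⊢
    have e2 : 0 < D.u a.1 a.2 ⬝ᵥ D.e p l := by exact_mod_cast hcl
    exact_mod_cast e2
  have hfx : toR (D.u p l) ⬝ᵥ (toR x - toR p) < 0 := by
    by_contra hcon
    have := mul_nonneg (not_lt.1 hcon) hcl.le
    linarith
  have hpl : (p, l) ∈ S := by
    rw [hS, Finset.mem_filter, Finset.mem_product]
    exact ⟨⟨hpV, Finset.mem_univ _⟩, hfx⟩
  -- (7)
  have h8 := hamin _ hpl
  have h9 := h5 (toR v)
  have hs1 : toR (D.u p l0) ⬝ᵥ (toR v - toR p) = 0 := by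
    rw [hl0]
    have e1 : toR v - toR p = -(toR p - toR v) := by abel
    rw [e1, dotProduct_neg, hpG.2, neg_zero]
  rw [← Finset.add_sum_erase _ _ (Finset.mem_univ l0), hs1, zero_mul, zero_add] at h9
  have h10 : (toR (D.u p l) ⬝ᵥ (toR v - toR p)) * c l ≤
      ∑ l ∈ Finset.univ.erase l0, (toR (D.u p l) ⬝ᵥ (toR v - toR p)) * c l := by
    refine Finset.single_le_sum (f := fun l => (toR (D.u p l) ⬝ᵥ (toR v - toR p)) * c l)
      (fun l' hl' => ?_) (Finset.mem_erase.2 ⟨hl, Finset.mem_univ _⟩)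
    exact mul_nonneg (D.cone p hpV l' _ hvP) (hc0 l' (Finset.ne_of_mem_erase hl'))
  have h11 : 0 ≤ toR (D.u p l) ⬝ᵥ (toR v - toR p) := D.cone p hpV l _ hvP
  have h12 : toR (D.u p l) ⬝ᵥ (toR v - toR p) ≤ (toR (D.u p l) ⬝ᵥ (toR v - toR p)) * c l :=
    le_mul_of_one_le_right h11 hcl1
  have h13 : f (p, l) (toR v) = toR (D.u p l) ⬝ᵥ (toR v - toR p) := rfl
  rw [h13] at h8
  linarith

end H19OZ
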