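import Pool.Agent.H19.OZ.Defs

/-!
# Row HD (about 120 lines): a smooth polytope is the intersection of its vertex cones; boxes

PROOF of `lp`. The minimum of the linear form `n ⬝ᵥ ·` over the finite set `D.Vt` (`Finset.exists_min_image`) is a lower
bound on the convex hull (half space convex, `convexHull_min`, `D.hull`).

PROOF of `mem_of_cone`. `P` is compact and convex (`D.hull`, `Set.Finite.isCompact_convexHull`). If `z ∉ P`, a
strictly separating linear form (`geometric_hahn_banach_point_compact` or `geometric_hahn_banach_compact_point`, written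
as `n ⬝ᵥ ·`: every continuous linear form on `Fin d → ℝ` is `x ↦ n ⬝ᵥ x` with `n j = f (Pi.single j 1)`) satisfies
`n ⬝ᵥ z < n ⬝ᵥ p` for all `p ∈ P`. Take `v` from `lp`. As `toR (v + e v i) ∈ P`, `n ⬝ᵥ toR (e v i) ≥ 0`. By `D.span`,
`n ⬝ᵥ (z - toR v) = ∑ i, (toR (u v i) ⬝ᵥ (z - toR v)) * (n ⬝ᵥ toR (e v i)) ≥ 0`, contradiction with
`n ⬝ᵥ z < n ⬝ᵥ toR v`.

PROOF of `boxC`. By induction on a finset `T` of indices: for every finset `T'` disjoint from `T` and all `c` with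
`0 ≤ c ≤ 1`, `toR v + ∑ i ∈ T', toR (e v i) + ∑ i ∈ T, c i • toR (e v i) ∈ P`. `T = ∅`: `Box`. Step `insert a T`: the point is
`(1 - c a)` times the point for `(T', T)` plus `c a` times the point for `(insert a T', T)`; convexity. Use `T = univ`,
`T' = ∅`.
-/

namespace H19OZ

open H66OD Matrix

variable {d : ℕ} {P : Set (Fin d → ℝ)}

theorem HD_toR_add (v w : Fin d → ℤ) : toR (v + w) = toR v + toR w := by
  funext i
  simp [toR]

theorem HD_toR_sum (T : Finset (Fin d)) (e : Fin d → (Fin d → ℤ)) :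
    toR (∑ i ∈ T, e i) = ∑ i ∈ T, toR (e i) := by
  funext j
  simp [toR, Finset.sum_apply]

theorem SD.convex (D : SD P) : Convex ℝ P := by
  rw [D.hull]; exact convex_convexHull ℝ _

theorem SD.vmem (D : SD P) {v : Fin d → ℤ} (hv : v ∈ D.Vt) : toR v ∈ P := by
  rw [D.hull]; exact subset_convexHull ℝ _ ⟨v, hv, rfl⟩

theorem SD.lp (D : SD P) (n : Fin d → ℝ) : ∃ v ∈ D.Vt, ∀ z ∈ P, n ⬝ᵥ toR v ≤ n ⬝ᵥ z := by
  obtain ⟨v, hv, hmin⟩ := Finset.exists_min_image D.Vt (fun v => n ⬝ᵥ toR v) D.ne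
  refine ⟨v, hv, fun z hz => ?_⟩
  have hconv : Convex ℝ {z : Fin d → ℝ | n ⬝ᵥ toR v ≤ n ⬝ᵥ z} := by
    intro x hx y hy a b ha hb hab
    change n ⬝ᵥ toR v ≤ n ⬝ᵥ x at hx
    change n ⬝ᵥ toR v ≤ n ⬝ᵥ y at hy
    change n ⬝ᵥ toR v ≤ n ⬝ᵥ (a • x + b • y)
    rw [dotProduct_add, dotProduct_smul, dotProduct_smul, smul_eq_mul, smul_eq_mul]
    calc n ⬝ᵥ toR v = a * (n ⬝ᵥ toR v) + b * (n ⬝ᵥ toR v) := by rw [← add_mul, hab, one_mul]
      _ ≤ a * (n ⬝ᵥ x) + b * (n ⬝ᵥ y) :=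
        add_le_add (mul_le_mul_of_nonneg_left hx ha) (mul_le_mul_of_nonneg_left hy hb)
  have hsub : toR '' (D.Vt : Set (Fin d → ℤ)) ⊆ {z : Fin d → ℝ | n ⬝ᵥ toR v ≤ n ⬝ᵥ z} := by
    rintro _ ⟨v', hv', rfl⟩
    exact hmin v' hv'
  rw [D.hull] at hz
  exact convexHull_min hsub hconv hz

theorem SD.mem_of_cone (D : SD P) (z : Fin d → ℝ)
    (hz : ∀ v ∈ D.Vt, ∀ i, 0 ≤ toR (D.u v i) ⬝ᵥ (z - toR v)) : z ∈ P := by
  by_contra hcon
  have hcl : IsClosed P := by
    rw [D.hull]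
    exact ((D.Vt.finite_toSet.image toR).isCompact_convexHull ℝ).isClosed
  obtain ⟨f, u, hf1, hf2⟩ := geometric_hahn_banach_point_closed D.convex hcl hcon
  set n : Fin d → ℝ := fun j => f (fun k => if j = k then 1 else 0) with hn
  have hfn : ∀ x : Fin d → ℝ, f x = n ⬝ᵥ x := by
    intro x
    have h1 := LinearMap.pi_apply_eq_sum_univ (f : (Fin d → ℝ) →ₗ[ℝ] ℝ) x
    have h2 : f x = ∑ i, x i • f (fun k => if i = k then 1 else 0) := h1
    rw [h2, dotProduct]
    refine Finset.sum_congr rfl fun i _ => ?_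
    rw [smul_eq_mul, mul_comm]
  obtain ⟨v, hv, hmin⟩ := D.lp n
  have hlt : n ⬝ᵥ z < n ⬝ᵥ toR v := by
    rw [← hfn, ← hfn]
    exact hf1.trans (hf2 _ (D.vmem hv))
  have he : ∀ i, 0 ≤ n ⬝ᵥ toR (D.e v i) := by
    intro i
    have h1 := hmin _ (D.mem v hv i)
    rw [HD_toR_add, dotProduct_add] at h1
    linarith
  have hsum : n ⬝ᵥ (z - toR v) =
      ∑ i, (toR (D.u v i) ⬝ᵥ (z - toR v)) * (n ⬝ᵥ toR (D.e v i)) := by
    conv_lhs => rw [D.span v hv (z - toR v)]
    rw [dotProduct_sum]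
    refine Finset.sum_congr rfl fun i _ => ?_
    rw [dotProduct_smul, smul_eq_mul]
  have hnn : 0 ≤ n ⬝ᵥ (z - toR v) := by
    rw [hsum]
    exact Finset.sum_nonneg fun i _ => mul_nonneg (hz v hv i) (he i)
  rw [dotProduct_sub] at hnn
  linarith

theorem SD.boxC (D : SD P) (hB : D.Box) {v : Fin d → ℤ} (hv : v ∈ D.Vt) (c : Fin d → ℝ)
    (h0 : ∀ i, 0 ≤ c i) (h1 : ∀ i, c i ≤ 1) : toR v + ∑ i, c i • toR (D.e v i) ∈ P := by
  classical
  have key : ∀ T : Finset (Fin d), ∀ T' : Finset (Fin d), Disjoint T T' →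
      toR v + ∑ i ∈ T', toR (D.e v i) + ∑ i ∈ T, c i • toR (D.e v i) ∈ P := by
    intro T
    induction T using Finset.induction_on with
    | empty =>
      intro T' _
      have := hB v hv T'
      rw [HD_toR_add, HD_toR_sum] at this
      simpa using this
    | insert a T ha ih =>
      intro T' hd
      rw [Finset.disjoint_insert_left] at hd
      have h2 := ih T' hd.2
      have h3 := ih (insert a T') (by
        rw [Finset.disjoint_insert_right]
        exact ⟨ha, hd.2⟩)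
      have h4 := D.convex h2 h3 (sub_nonneg.2 (h1 a)) (h0 a) (sub_add_cancel 1 (c a))
      rw [Finset.sum_insert hd.1] at h4
      rw [Finset.sum_insert ha]
      convert h4 using 1
      module
  have := key Finset.univ ∅ (Finset.disjoint_empty_right _)
  simpa using this

end H19OZ
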