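import Pool.Agent.H19.OZ.Core

/-!
# Row Idp (about 60 lines): the integer decomposition property

PROOF. Induction on `k ≥ 1` (`Nat.le_induction`). `k = 1`: `toR x = 1 • y ∈ P`, `f 0 = x`. Step `k → k + 1`: `toR x = ((k+1 : ℕ) : ℝ) • y`;
`step` gives `p` with `toR p ∈ P`, `toR (x - p) = k • z`; induction gives `f : Fin k → _` for `x - p`; use
`Fin.cons p f` and `Fin.sum_univ_succ`.
-/

namespace H19OZ

open H66OD

theorem idp {d : ℕ} {P : Set (Fin d → ℝ)} (D : SD P) (hB : D.Box) : HasIDP P := by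
  intro k hk
  induction k, hk using Nat.le_induction with
  | base =>
    rintro x ⟨y, hy, hxy⟩
    rw [Nat.cast_one, one_smul] at hxy
    refine ⟨fun _ => x, fun _ => ?_, ?_⟩
    · rw [hxy]
      exact hy
    · simp
  | succ k hk ih =>
    rintro x ⟨y, hy, hxy⟩
    rw [Nat.cast_add, Nat.cast_one] at hxy
    obtain ⟨p, hp, z, hz, hpz⟩ := step D hB k hk x hy hxy
    obtain ⟨f, hf, hs⟩ := ih (x - p) ⟨z, hz, hpz⟩
    refine ⟨Fin.cons p f, fun i => ?_, ?_⟩
    · refine Fin.cases ?_ (fun j => ?_) i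
      · rw [Fin.cons_zero]
        exact hp
      · rw [Fin.cons_succ]
        exact hf j
    · rw [Fin.sum_univ_succ, Fin.cons_zero]
      simp only [Fin.cons_succ]
      rw [← hs]
      abel

end H19OZ
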