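import Pool.Agent.H19.OZ.HD

/-!
# Row LE (about 90 lines): boxes from the definitions; long edges

`box_of`: for `v ∈ D.Vt`, `toR v` is an extreme point (`D.ext`); `T' = T.image (D.e v)` is contained in
`Set.range (D.e v) = edgeVectors P (toR v)` (`D.edge`); `D.e v` is injective (`D.dual`: `u v i ⬝ᵥ e v i = 1`, `u v i ⬝ᵥ e v j = 0`), so
`∑ e ∈ T', toR e = ∑ i ∈ T, toR (e v i)` (`Finset.sum_image`), and `toR_add`, `toR_sum`.
`box_of_edges`: `T = ∅`: `D.vmem`. `T` nonempty, `c = T.card`, `1 ≤ c ≤ d`. For `i ∈ T`: `toR v + (c : ℝ) • toR (e v i) ∈ P`, since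
it is on the segment from `toR v` to `toR v + d • toR (e v i) ∈ P` (`0 < c/d ≤ 1`, convexity). And
`toR (v + ∑ i ∈ T, e v i) = ∑ i ∈ T, (1/c) • (toR v + c • toR (e v i))`: `Convex.sum_mem`.
-/

namespace H19OZ

open H66OD Matrix

variable {d : ℕ} {P : Set (Fin d → ℝ)}

theorem LE_inj (D : SD P) {v : Fin d → ℤ} (hv : v ∈ D.Vt) : Function.Injective (D.e v) := by
  intro i j hij
  by_contra hne
  have h1 := D.dual v hv i i
  have h2 := D.dual v hv i j
  rw [if_pos rfl] at h1
  rw [if_neg hne] at h2
  rw [← hij] at h2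
  rw [h1] at h2
  exact one_ne_zero h2

theorem SD.box_of (D : SD P) (h : HasVertexBoxes P) : D.Box := by
  classical
  intro v hv T
  have h1 := h (toR v) (D.ext v hv) (T.image (D.e v)) (by
    rw [← D.edge v hv]
    intro x hx
    rw [Finset.mem_coe, Finset.mem_image] at hx
    obtain ⟨i, _, rfl⟩ := hx
    exact ⟨i, rfl⟩)
  rw [Finset.sum_image (fun a _ b _ hab => LE_inj D hv hab)] at h1
  rw [toR_add, toR_sum]
  exact h1

theorem SD.box_of_edges (D : SD P) (h : EdgesAtLeast d P) : D.Box := by
  classical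
  intro v hv T
  rcases T.eq_empty_or_nonempty with rfl | hT
  · rw [Finset.sum_empty, add_zero]
    exact D.vmem hv
  · have hc : 0 < T.card := hT.card_pos
    have hcd : T.card ≤ d := by
      have := T.card_le_univ
      rwa [Fintype.card_fin] at this
    have hd : 0 < d := lt_of_lt_of_le hc hcd
    have hcR : (0 : ℝ) < (T.card : ℝ) := by exact_mod_cast hc
    have hdR : (0 : ℝ) < (d : ℝ) := by exact_mod_cast hd
    have hcdR : (T.card : ℝ) ≤ (d : ℝ) := by exact_mod_cast hcd
    have hpt : ∀ i ∈ T, toR v + (T.card : ℝ) • toR (D.e v i) ∈ P := by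
      intro i _
      have he : D.e v i ∈ edgeVectors P (toR v) := by
        rw [← D.edge v hv]; exact ⟨i, rfl⟩
      have h2 := h (toR v) (D.ext v hv) (D.e v i) he
      have h3 := D.convex (D.vmem hv) h2 (a := 1 - (T.card : ℝ) / d) (b := (T.card : ℝ) / d)
        (by rw [sub_nonneg, div_le_one hdR]; exact hcdR) (by positivity) (by ring)
      have h4 : (1 - (T.card : ℝ) / d) • toR v + ((T.card : ℝ) / d) • (toR v + (d : ℝ) • toR (D.e v i))
          = toR v + (T.card : ℝ) • toR (D.e v i) := by
        ext j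
        simp only [Pi.add_apply, Pi.smul_apply, smul_eq_mul]
        field_simp
        ring
      rw [h4] at h3
      exact h3
    have h5 := D.convex.sum_mem (t := T) (w := fun _ => 1 / (T.card : ℝ))
      (z := fun i => toR v + (T.card : ℝ) • toR (D.e v i))
      (fun i _ => by positivity)
      (by rw [Finset.sum_const, nsmul_eq_mul]; field_simp)
      hpt
    have h6 : ∑ i ∈ T, (1 / (T.card : ℝ)) • (toR v + (T.card : ℝ) • toR (D.e v i))
        = toR (v + ∑ i ∈ T, D.e v i) := by
      rw [toR_add, toR_sum]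
      simp only [smul_add, smul_smul]
      rw [Finset.sum_add_distrib, Finset.sum_const, ← Nat.cast_smul_eq_nsmul ℝ, smul_smul]
      have h7 : (T.card : ℝ) * (1 / (T.card : ℝ)) = 1 := by field_simp
      have h8 : 1 / (T.card : ℝ) * (T.card : ℝ) = 1 := by field_simp
      rw [h7, h8, one_smul]
      simp only [one_smul]
    rw [h6] at h5
    exact h5

end H19OZ
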