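import Pool.Agent.H19.OZ.Det

/-!
# Row Mini (about 150 lines): weights with prescribed leverage scores

PROOF. Uses `qm_posDef`, `det_update` (row Det).
For `θ : E → ℝ` put `w = exp ∘ θ`, `F θ = Real.log (det (qm q (exp ∘ θ))) - ∑ e, lam e * θ e`. By `hlow` (with
`log (exp (θ e)) = θ e`), `F θ ≥ 0`. `F` is continuous (`det` is continuous in the entries,
`Continuous.matrix_det`; `det > 0` by positive definiteness; `Real.continuousAt_log`).
Let `ε > 0` with `2 * Real.sqrt (ε * F 0) ≤ δ` (e.g. `ε = δ^2 / (4 * (F 0 + 1))`). `G θ = F θ + ε * ∑ e, (θ e)^2` is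
continuous and tends to `∞` at infinity (`G θ ≥ ε ∑ (θ e)^2`): it has a global minimiser `θ`
(`Continuous.exists_forall_le'`, or: minimise over the compact set `{θ | ∑ (θ e)^2 ≤ G 0 / ε}`,
`IsCompact.exists_isMinOn`). `G θ ≤ G 0 = F 0` and `F θ ≥ 0` give `ε * (θ e)^2 ≤ F 0`.
Fix `e`, and consider `g t = G (Function.update θ e (θ e + t)) - G θ ≥ 0 = g 0`. As
`qm q (exp ∘ (update θ e (θ e + t))) = qm q (exp ∘ θ) + ((exp t - 1) * exp (θ e)) • vecMulVec (q e) (q e)`,
`det_update` gives `g t = Real.log (1 + (exp t - 1) * lev q w e) - lam e * t + ε * (2 * θ e * t + t^2)`.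
(`1 + (exp t - 1) * lev > 0` near `0`.) Derivative at the minimum `0` is zero
(`IsLocalMin.hasDerivAt_eq_zero`): `lev q w e - lam e + 2 * ε * θ e = 0`. So
`|lev q w e - lam e| = 2 ε |θ e| ≤ 2 * sqrt (ε * F 0) ≤ δ`.
-/

namespace H19OZ

open Matrix

private theorem Mini_qm {n E : Type} [Fintype E] [DecidableEq E] (q : E → n → ℝ)
    (w : E → ℝ) (e : E) (c : ℝ) :
    qm q (fun e' => w e' + if e' = e then c else 0) = qm q w + c • vecMulVec (q e) (q e) := by
  unfold qm
  simp only [add_smul, Finset.sum_add_distrib, ite_smul, zero_smul, Finset.sum_ite_eq',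
    Finset.mem_univ, if_true]

theorem mini {n E : Type} [Fintype n] [DecidableEq n] [Fintype E] [DecidableEq E] (q : E → n → ℝ)
    (hspan : ∀ x : n → ℝ, (∀ e, q e ⬝ᵥ x = 0) → x = 0) (lam : E → ℝ)
    (hlow : ∀ w : E → ℝ, (∀ e, 0 < w e) →
      ∑ e, lam e * Real.log (w e) ≤ Real.log (qm q w).det)
    (δ : ℝ) (hδ : 0 < δ) :
    ∃ w : E → ℝ, (∀ e, 0 < w e) ∧ ∀ e, |lev q w e - lam e| ≤ δ := by
  set W : (E → ℝ) → E → ℝ := fun θ e => Real.exp (θ e) with hW
  have hWpos : ∀ θ e, 0 < W θ e := fun θ e => Real.exp_pos _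
  have hdet : ∀ θ, 0 < (qm q (W θ)).det := fun θ => (qm_posDef (hWpos θ) hspan).det_pos
  set F : (E → ℝ) → ℝ := fun θ => Real.log (qm q (W θ)).det - ∑ e, lam e * θ e with hF
  have hF0 : ∀ θ, 0 ≤ F θ := by
    intro θ
    have h1 := hlow (W θ) (hWpos θ)
    have h2 : ∑ e, lam e * Real.log (W θ e) = ∑ e, lam e * θ e := by
      refine Finset.sum_congr rfl fun e _ => ?_
      rw [hW, Real.log_exp]
    rw [h2] at h1
    rw [hF]
    linarith
  have hFc : Continuous F := by
    have h1 : Continuous fun θ : E → ℝ => qm q (W θ) := by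
      unfold qm
      refine continuous_finsetSum _ fun e _ => ?_
      have h3 : Continuous fun θ : E → ℝ => W θ e :=
        Real.continuous_exp.comp (continuous_apply e)
      exact h3.smul continuous_const
    have h2 : Continuous fun θ : E → ℝ => Real.log (qm q (W θ)).det :=
      (h1.matrix_det).log fun θ => (hdet θ).ne'
    have h3 : Continuous fun θ : E → ℝ => ∑ e, lam e * θ e :=
      continuous_finsetSum _ fun e _ => continuous_const.mul (continuous_apply e)
    exact h2.sub h3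
  set ε : ℝ := δ ^ 2 / (4 * (F 0 + 1)) with hε
  have hF00 : 0 ≤ F 0 := hF0 0
  have hεpos : 0 < ε := by rw [hε]; positivity
  have hεF : 4 * ε * F 0 ≤ δ ^ 2 := by
    have h1 : 4 * ε * (F 0 + 1) = δ ^ 2 := by
      rw [hε]
      field_simp
    nlinarith
  set G : (E → ℝ) → ℝ := fun θ => F θ + ε * ∑ e, (θ e) ^ 2 with hG
  have hGc : Continuous G := by
    refine hFc.add (continuous_const.mul ?_)
    exact continuous_finsetSum _ fun e _ => (continuous_apply e).pow 2
  have hG0 : G 0 = F 0 := by rw [hG]; simp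
  have hGlow : ∀ θ e, ε * (θ e) ^ 2 ≤ G θ := by
    intro θ e
    have h1 : (θ e) ^ 2 ≤ ∑ e, (θ e) ^ 2 :=
      Finset.single_le_sum (f := fun e => (θ e) ^ 2) (fun i _ => sq_nonneg _)
        (Finset.mem_univ e)
    have h2 := hF0 θ
    have h3 : ε * (θ e) ^ 2 ≤ ε * ∑ e, (θ e) ^ 2 := mul_le_mul_of_nonneg_left h1 hεpos.le
    rw [hG]
    linarith
  set M : ℝ := (F 0 + 1) / ε + 1 with hM
  have hM1 : 1 ≤ M := by
    have : 0 ≤ (F 0 + 1) / ε := by positivity
    linarith
  have hMε : F 0 < ε * M ^ 2 := by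
    have h1 : ε * M = F 0 + 1 + ε := by
      rw [hM]
      field_simp
    have h2 : ε * M ≤ ε * M ^ 2 := by
      have h3 : M ≤ M ^ 2 := by nlinarith
      exact mul_le_mul_of_nonneg_left h3 hεpos.le
    linarith
  obtain ⟨θ, -, hθ⟩ := (isCompact_closedBall (0 : E → ℝ) M).exists_isMinOn
    ⟨0, Metric.mem_closedBall_self (by linarith)⟩ hGc.continuousOn
  have hmin0 : G θ ≤ G 0 := hθ (Metric.mem_closedBall_self (by linarith))
  have hmin : ∀ θ', G θ ≤ G θ' := by
    intro θ'
    by_cases h : θ' ∈ Metric.closedBall (0 : E → ℝ) M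
    · exact hθ h
    · rw [mem_closedBall_zero_iff, pi_norm_le_iff_of_nonneg (by linarith)] at h
      push Not at h
      obtain ⟨e, he⟩ := h
      rw [Real.norm_eq_abs] at he
      have h1 : M ^ 2 < (θ' e) ^ 2 := by
        rw [← sq_abs (θ' e)]
        exact pow_lt_pow_left₀ he (by linarith) (by norm_num)
      have h2 := hGlow θ' e
      have h3 : ε * M ^ 2 < ε * (θ' e) ^ 2 := mul_lt_mul_of_pos_left h1 hεpos
      linarith
  refine ⟨W θ, hWpos θ, fun e => ?_⟩
  set Lv : ℝ := lev q (W θ) e with hLv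
  -- the variation in the coordinate `e`
  have hvar : ∀ t : ℝ, 0 < 1 + (Real.exp t - 1) * Lv ∧
      G (fun e' => θ e' + if e' = e then t else 0) = G θ + (Real.log (1 + (Real.exp t - 1) * Lv)
        - lam e * t + ε * (2 * θ e * t + t ^ 2)) := by
    intro t
    set θ' : E → ℝ := fun e' => θ e' + if e' = e then t else 0 with hθ'
    have e1 : W θ' = fun e' => W θ e' + if e' = e then (Real.exp t - 1) * Real.exp (θ e)
        else 0 := by
      funext e'
      by_cases h : e' = e
      · subst h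
        simp only [hW, hθ', if_true, Real.exp_add]
        ring
      · simp only [hW, hθ', if_neg h, add_zero]
    have e2 : (qm q (W θ')).det = (qm q (W θ)).det * (1 + (Real.exp t - 1) * Lv) := by
      rw [e1, Mini_qm, det_update (qm_posDef (hWpos θ) hspan), hLv]
      unfold lev
      ring
    have e3 : 0 < 1 + (Real.exp t - 1) * Lv := by
      have h1 := hdet θ'
      rw [e2] at h1
      exact (pos_iff_pos_of_mul_pos h1).1 (hdet θ)
    have e4 : ∑ e', lam e' * θ' e' = ∑ e', lam e' * θ e' + lam e * t := by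
      simp only [hθ', mul_add, Finset.sum_add_distrib, mul_ite, mul_zero, Finset.sum_ite_eq',
        Finset.mem_univ, if_true]
    have e5 : ∑ e', (θ' e') ^ 2 = ∑ e', (θ e') ^ 2 + (2 * θ e * t + t ^ 2) := by
      have h1 : ∀ e', (θ' e') ^ 2 = (θ e') ^ 2 + if e' = e then (2 * θ e * t + t ^ 2) else 0 := by
        intro e'
        by_cases h : e' = e
        · subst h
          simp only [hθ', if_true]
          ring
        · simp only [hθ', if_neg h, add_zero]
      rw [Finset.sum_congr rfl fun e' _ => h1 e', Finset.sum_add_distrib]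
      simp only [Finset.sum_ite_eq', Finset.mem_univ, if_true]
    refine ⟨e3, ?_⟩
    simp only [hG, hF]
    rw [e2, e4, e5, Real.log_mul (hdet θ).ne' e3.ne']
    ring
  have hder : HasDerivAt (fun t : ℝ => Real.log (1 + (Real.exp t - 1) * Lv)
      - lam e * t + ε * (2 * θ e * t + t ^ 2)) (Lv - lam e + ε * (2 * θ e)) 0 := by
    have h1 : HasDerivAt (fun t : ℝ => 1 + (Real.exp t - 1) * Lv) (Real.exp 0 * Lv) 0 :=
      (((Real.hasDerivAt_exp 0).sub_const 1).mul_const Lv).const_add 1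
    have h2 := h1.log (by simp)
    have h3 : HasDerivAt (fun t : ℝ => lam e * t) (lam e * 1) 0 :=
      (hasDerivAt_id (0 : ℝ)).const_mul (lam e)
    have h4 : HasDerivAt (fun t : ℝ => 2 * θ e * t + t ^ 2) (2 * θ e * 1 + 2 * (0 : ℝ)) 0 := by
      have h5 : HasDerivAt (fun t : ℝ => 2 * θ e * t) (2 * θ e * 1) 0 :=
        (hasDerivAt_id (0 : ℝ)).const_mul (2 * θ e)
      have h6 : HasDerivAt (fun t : ℝ => t ^ 2) (2 * (0 : ℝ)) 0 := by
        simpa using hasDerivAt_pow 2 (0 : ℝ)
      exact h5.add h6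
    have h7 := (h2.sub h3).add (h4.const_mul ε)
    refine h7.congr_deriv ?_
    rw [Real.exp_zero]
    ring
  have hloc : IsLocalMin (fun t : ℝ => Real.log (1 + (Real.exp t - 1) * Lv)
      - lam e * t + ε * (2 * θ e * t + t ^ 2)) 0 := by
    refine Filter.Eventually.of_forall fun t => ?_
    have h1 := (hvar t).2
    have h2 := hmin (fun e' => θ e' + if e' = e then t else 0)
    have h3 : Real.log (1 + (Real.exp (0 : ℝ) - 1) * Lv)
      - lam e * 0 + ε * (2 * θ e * 0 + 0 ^ 2) = 0 := by simp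
    beta_reduce
    rw [h3]
    linarith
  have hz := hloc.hasDerivAt_eq_zero hder
  have h1 : Lv - lam e = -(2 * ε * θ e) := by linarith
  rw [h1, abs_neg]
  have h2 := hGlow θ e
  rw [hG0] at hmin0
  have h3 : (2 * ε * θ e) ^ 2 ≤ δ ^ 2 := by
    have h4 : (2 * ε * θ e) ^ 2 = 4 * ε * (ε * (θ e) ^ 2) := by ring
    rw [h4]
    have h5 : 4 * ε * (ε * (θ e) ^ 2) ≤ 4 * ε * F 0 :=
      mul_le_mul_of_nonneg_left (h2.trans hmin0) (by positivity)
    linarith
  exact abs_le_of_sq_le_sq h3 hδ.le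

end H19OZ
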