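import Pool.Agent.H19.OZ.Face

/-!
# Row Mu (about 110 lines): the balancing weights

PROOF. `gv D x y k v = toR x - (k+1) • toR v - ∑ i ∈ If, toR (e v i)`, `If D y v = {i | 0 < toR (u v i) ⬝ᵥ (y - toR v)}`.
Suppose `0` is not in the convex hull of the finite set `{g v | v ∈ V}`. Separation (the hull is compact convex:
`geometric_hahn_banach_compact_point` / `..._point_compact`; linear forms on `Fin d → ℝ` are `n ⬝ᵥ ·`) gives `n` with
`n ⬝ᵥ g v < 0` for all `v ∈ V`. Take `v` from `fc_lp D hy n`. For `i ∈ If D y v`: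
`toR (v + e v i) ∈ Fc P y` by `fc_of_tight` (if `toR (u v j) ⬝ᵥ (y - toR v) = 0` then `j ≠ i`, and
`toR (u v j) ⬝ᵥ (toR (v + e v i) - toR v) = toR (u v j) ⬝ᵥ toR (e v i) = 0` by `D.dual`, `toR_dot`); so `n ⬝ᵥ toR (e v i) ≥ 0`.
By `D.span`: `toR x - (k+1) • toR v = ∑ i, t i • toR (e v i)`, `t i = toR (u v i) ⬝ᵥ (toR x - (k+1) • toR v)
= (k+1) * (toR (u v i) ⬝ᵥ (y - toR v))`. For `i ∉ If`: `toR (u v i) ⬝ᵥ (y - toR v) = 0` (it is `≥ 0` by `D.cone`, `y ∈ P`), `t i = 0`.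
For `i ∈ If`: `t i > 0` and `t i` is an integer (`= u v i ⬝ᵥ (x - (k+1) • v)`), so `t i ≥ 1`. Hence
`n ⬝ᵥ g v = ∑ i ∈ If, (t i - 1) * (n ⬝ᵥ toR (e v i)) ≥ 0`: contradiction. So `0` is a convex combination of the
`g v` (`Finset.mem_convexHull'`, or `convexHull_image`-type lemma: first `mem_convexHull_image`/`Finset.centerMass`):
`∃ μ`.
-/

namespace H19OZ

open H66OD Matrix
open scoped Classical

variable {d : ℕ} {P : Set (Fin d → ℝ)}

/-- The edge directions at `v` of the minimal face containing `y`. -/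
noncomputable def If (D : SD P) (y : Fin d → ℝ) (v : Fin d → ℤ) : Finset (Fin d) :=
  Finset.univ.filter (fun i => 0 < toR (D.u v i) ⬝ᵥ (y - toR v))

/-- The vertices of the minimal face containing `y`. -/
noncomputable def VF (D : SD P) (y : Fin d → ℝ) : Finset (Fin d → ℤ) :=
  D.Vt.filter (fun v => toR v ∈ Fc P y)

/-- The vector `g v = x - (k+1) v - ∑ e`. -/
noncomputable def gv (D : SD P) (x : Fin d → ℤ) (y : Fin d → ℝ) (k : ℕ) (v : Fin d → ℤ) :
    Fin d → ℝ :=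
  toR x - ((k : ℝ) + 1) • toR v - ∑ i ∈ If D y v, toR (D.e v i)

/-- every linear functional is nonnegative on some `g v` -/
theorem Mu_nonneg (D : SD P) {y : Fin d → ℝ} (hy : y ∈ P) (x : Fin d → ℤ) (k : ℕ)
    (hx : toR x = ((k : ℝ) + 1) • y) (n : Fin d → ℝ) : ∃ v ∈ VF D y, 0 ≤ n ⬝ᵥ gv D x y k v := by
  obtain ⟨v, hv, hvF, hmin⟩ := fc_lp D hy n
  refine ⟨v, Finset.mem_filter.2 ⟨hv, hvF⟩, ?_⟩
  have hk : (0 : ℝ) < (k : ℝ) + 1 := by positivity
  have he : ∀ i ∈ If D y v, 0 ≤ n ⬝ᵥ toR (D.e v i) := by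
    intro i hi
    have hi' := (Finset.mem_filter.1 hi).2
    have hF : toR (v + D.e v i) ∈ Fc P y := by
      refine fc_of_tight D hy (D.mem v hv i) hv hvF fun j hj => ?_
      have hji : j ≠ i := by
        rintro rfl
        rw [hj] at hi'
        exact lt_irrefl _ hi'
      rw [toR_add, add_sub_cancel_left, toR_dot, D.dual v hv j i, if_neg hji, Int.cast_zero]
    have h1 := hmin _ hF
    rw [toR_add, dotProduct_add] at h1
    linarith
  have ht : ∀ i, toR (D.u v i) ⬝ᵥ (toR x - ((k : ℝ) + 1) • toR v) =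
      ((k : ℝ) + 1) * (toR (D.u v i) ⬝ᵥ (y - toR v)) := by
    intro i
    rw [hx, ← smul_sub, dotProduct_smul, smul_eq_mul]
  have hint : ∀ i, toR (D.u v i) ⬝ᵥ (toR x - ((k : ℝ) + 1) • toR v) =
      ((D.u v i ⬝ᵥ (x - ((k : ℤ) + 1) • v) : ℤ) : ℝ) := by
    intro i
    rw [← toR_dot, toR_sub, toR_zsmul]
    push_cast
    rfl
  have hg : gv D x y k v = ∑ i ∈ If D y v,
      (toR (D.u v i) ⬝ᵥ (toR x - ((k : ℝ) + 1) • toR v) - 1) • toR (D.e v i) := by
    unfold gv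
    have h1 := D.span v hv (toR x - ((k : ℝ) + 1) • toR v)
    have h2 : ∑ i, (toR (D.u v i) ⬝ᵥ (toR x - ((k : ℝ) + 1) • toR v)) • toR (D.e v i) =
        ∑ i ∈ If D y v, (toR (D.u v i) ⬝ᵥ (toR x - ((k : ℝ) + 1) • toR v)) •
          toR (D.e v i) := by
      symm
      refine Finset.sum_subset (Finset.subset_univ _) fun i _ hi => ?_
      have h0 : toR (D.u v i) ⬝ᵥ (y - toR v) = 0 := by
        refine le_antisymm ?_ (D.cone v hv i y hy)
        by_contra hcon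
        rw [not_le] at hcon
        exact hi (Finset.mem_filter.2 ⟨Finset.mem_univ i, hcon⟩)
      rw [ht, h0, mul_zero, zero_smul]
    rw [h2] at h1
    calc toR x - ((k : ℝ) + 1) • toR v - ∑ i ∈ If D y v, toR (D.e v i)
        = (∑ i ∈ If D y v, (toR (D.u v i) ⬝ᵥ (toR x - ((k : ℝ) + 1) • toR v)) •
          toR (D.e v i)) - ∑ i ∈ If D y v, toR (D.e v i) := by rw [← h1]
      _ = _ := by
          rw [← Finset.sum_sub_distrib]
          exact Finset.sum_congr rfl fun i _ => by rw [sub_smul, one_smul]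
  rw [hg, dotProduct_sum]
  refine Finset.sum_nonneg fun i hi => ?_
  rw [dotProduct_smul, smul_eq_mul]
  refine mul_nonneg ?_ (he i hi)
  have hi' := (Finset.mem_filter.1 hi).2
  have hpos : 0 < toR (D.u v i) ⬝ᵥ (toR x - ((k : ℝ) + 1) • toR v) := by
    rw [ht]; exact mul_pos hk hi'
  rw [hint] at hpos ⊢
  have h1 : (1 : ℤ) ≤ D.u v i ⬝ᵥ (x - ((k : ℤ) + 1) • v) := by exact_mod_cast hpos
  have h2 : (1 : ℝ) ≤ ((D.u v i ⬝ᵥ (x - ((k : ℤ) + 1) • v) : ℤ) : ℝ) := by exact_mod_cast h1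
  linarith

theorem mu_exists (D : SD P) {y : Fin d → ℝ} (hy : y ∈ P) (x : Fin d → ℤ) (k : ℕ)
    (hx : toR x = ((k : ℝ) + 1) • y) :
    ∃ μ : (Fin d → ℤ) → ℝ, (∀ v ∈ VF D y, 0 ≤ μ v) ∧ ∑ v ∈ VF D y, μ v = 1 ∧
      ∑ v ∈ VF D y, μ v • gv D x y k v = 0 := by
  let L : (VF D y → ℝ) →ₗ[ℝ] (Fin d → ℝ) :=
    ∑ v : VF D y, (LinearMap.proj v).smulRight (gv D x y k v.1)
  have hL : ∀ μ, L μ = ∑ v : VF D y, μ v • gv D x y k v.1 := by
    intro μ
    simp only [L, LinearMap.sum_apply, LinearMap.smulRight_apply, LinearMap.proj_apply]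
  by_cases h0 : (0 : Fin d → ℝ) ∈ L '' stdSimplex ℝ (VF D y)
  · obtain ⟨μ, ⟨hμ0, hμ1⟩, hμ⟩ := h0
    refine ⟨fun v => if h : v ∈ VF D y then μ ⟨v, h⟩ else 0, fun v hv => ?_, ?_, ?_⟩
    · simp only [dif_pos hv]
      exact hμ0 _
    · rw [← Finset.sum_coe_sort (VF D y)]
      rw [← hμ1]
      exact Finset.sum_congr rfl fun v _ => by simp only [v.2, dite_true]
    · rw [← Finset.sum_coe_sort (VF D y)]
      rw [← hμ, hL]
      exact Finset.sum_congr rfl fun v _ => by simp only [v.2, dite_true]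
  · exfalso
    have hconv : Convex ℝ (L '' stdSimplex ℝ (VF D y)) := (convex_stdSimplex ℝ _).linear_image L
    have hcpt : IsCompact (L '' stdSimplex ℝ (VF D y)) :=
      (isCompact_stdSimplex ℝ _).image (LinearMap.continuous_on_pi L)
    obtain ⟨f, u, hf1, hf2⟩ := geometric_hahn_banach_closed_point hconv hcpt.isClosed h0
    rw [map_zero] at hf2
    have hfn : ∀ z, f z = (fun i => f (Pi.single i 1)) ⬝ᵥ z := by
      intro z
      have h1 := LinearMap.pi_apply_eq_sum_univ (f : (Fin d → ℝ) →ₗ[ℝ] ℝ) z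
      have h2 : f z = ∑ i, z i • f (fun j => if i = j then 1 else 0) := h1
      rw [h2]
      unfold dotProduct
      refine Finset.sum_congr rfl fun i _ => ?_
      rw [smul_eq_mul, mul_comm]
      congr 2
      funext j
      rw [Pi.single_apply]
      exact if_congr eq_comm rfl rfl
    obtain ⟨v, hv, hnn⟩ := Mu_nonneg D hy x k hx (fun i => f (Pi.single i 1))
    rw [← hfn] at hnn
    have hmem : gv D x y k v ∈ L '' stdSimplex ℝ (VF D y) := by
      refine ⟨Pi.single ⟨v, hv⟩ 1, single_mem_stdSimplex ℝ _, ?_⟩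
      rw [hL, Finset.sum_eq_single (⟨v, hv⟩ : VF D y)]
      · rw [Pi.single_eq_same, one_smul]
      · intro w _ hw
        rw [Pi.single_eq_of_ne hw, zero_smul]
      · intro h; exact absurd (Finset.mem_univ _) h
    have := hf1 _ hmem
    linarith

end H19OZ
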